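import Pool.Agent.H827.SF.Thin

/-!
# Maps of compact manifolds with boundary onto the ball, with universally embeddable fibres
-/

set_option autoImplicit false

open Set Filter Topology Metric Function MeasureTheory
open scoped Manifold ContDiff

noncomputable section

namespace Pool.Agent.H827.SF

open Pool.Agent.Y522 Pool.Agent.Y833.SH Pool.Agent.X175.SH
open Pool.Agent.Y784.SH (Dif Dif.comp Dif.id Dif.inv)

attribute [local instance] Pool.Agent.Y833.SH.csI Pool.Agent.Y833.SH.mfI

section final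

variable {m : ℕ} {M : Type} [TopologicalSpace M] [ChartedSpace (EuclideanHalfSpace (m + 1)) M]
  [IsManifold (𝓡∂ (m + 1)) ∞ M] [CompactSpace M] [T2Space M]

/-- the main theorem for the interior, with a diffeomorphism `θ` of `ℝ^n` -/
theorem int_coreS (f : M → E (m + 1)) (hfc : Continuous f)
    (hint : ∀ x, x ∈ (𝓡∂ (m + 1)).interior M ↔ ‖f x‖ < 1) (hsurj : ∀ y, ‖y‖ < 1 → ∃ x, f x = y)
    (B : Set (E (m + 1))) (hB : IsClosed B) (θ θ' : E (m + 1) → E (m + 1)) (hθ : Dif (m + 1) θ)
    (hθ'c : Continuous θ') (h1 : ∀ x, θ' (θ x) = x) (h2 : ∀ x, θ (θ' x) = x)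
    (hT : Thin {z : E (m + 1) | (OpenPartialHomeomorph.univUnitBall (θ' z) : E (m + 1)) ∈ B})
    (hfibS : ∀ y, y ∉ B → ‖y‖ < 1 → UEmb (m + 1) {x : (𝓡∂ (m + 1)).interior M | f x = y})
    (hs : ∀ x, ‖f x‖ < 1 → f x ∉ B → ContMDiffAt (𝓡∂ (m + 1)) (𝓡 (m + 1)) ∞ f x)
    (hfib : ∀ y ∈ B, ‖y‖ < 1 → Emb (m + 1) {x : (𝓡∂ (m + 1)).interior M | f x = y}) :
    (∀ K : Set ((𝓡∂ (m + 1)).interior M), IsCompact K → Emb (m + 1) K) ∧
      Nonempty (Diffeomorph (𝓡 (m + 1)) (𝓡 (m + 1)) ((𝓡∂ (m + 1)).interior M) (E (m + 1)) ∞) := by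
  set H : (𝓡∂ (m + 1)).interior M → E (m + 1) :=
    fun x => θ (OpenPartialHomeomorph.univUnitBall.symm (f x)) with hH
  have hlt : ∀ x : (𝓡∂ (m + 1)).interior M, ‖f x‖ < 1 := fun x => (hint x).1 x.2
  have hsymm : ∀ y : E (m + 1), ‖y‖ < 1 →
      ContDiffAt ℝ ∞ (OpenPartialHomeomorph.univUnitBall.symm : E (m + 1) → E (m + 1)) y :=
    fun y hy => (OpenPartialHomeomorph.contDiffOn_univUnitBall_symm (n := ⊤)).contDiffAt
      (isOpen_ball.mem_nhds (mem_ball_zero_iff.2 hy))
  have hub : ∀ y : E (m + 1), ‖(OpenPartialHomeomorph.univUnitBall y : E (m + 1))‖ < 1 := fun y =>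
    mem_ball_zero_iff.1 (OpenPartialHomeomorph.univUnitBall.map_source (mem_univ y))
  have hubc : Continuous (OpenPartialHomeomorph.univUnitBall : E (m + 1) → E (m + 1)) :=
    (OpenPartialHomeomorph.contDiff_univUnitBall (n := 0)).continuous
  have hback : ∀ x : (𝓡∂ (m + 1)).interior M,
      (OpenPartialHomeomorph.univUnitBall (θ' (H x)) : E (m + 1)) = f x := by
    intro x
    simp only [hH, h1]
    exact uub_right _ (hlt x)
  have hforw : ∀ (x : (𝓡∂ (m + 1)).interior M) (z : E (m + 1)),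
      f x = OpenPartialHomeomorph.univUnitBall (θ' z) → H x = z := by
    intro x z hxz
    simp only [hH, hxz, uub_left, h2]
  have hHc : Continuous H := by
    rw [continuous_iff_continuousAt]
    intro x
    have h3 : ContinuousAt (fun x : (𝓡∂ (m + 1)).interior M => f x) x :=
      (hfc.comp continuous_subtype_val).continuousAt
    have h4 : ContinuousAt (fun x : (𝓡∂ (m + 1)).interior M =>
        (OpenPartialHomeomorph.univUnitBall.symm (f x) : E (m + 1))) x :=
      ContinuousAt.comp (g := (OpenPartialHomeomorph.univUnitBall.symm : E (m + 1) → E (m + 1)))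
        (hsymm _ (hlt x)).continuousAt h3
    exact ContinuousAt.comp (g := θ) (hθ.2 _).continuousAt h4
  have hHp : IsProperMap H := by
    rw [isProperMap_iff_isCompact_preimage]
    refine ⟨hHc, fun K hK => ?_⟩
    rw [Subtype.isCompact_iff]
    have h3 : (Subtype.val '' (H ⁻¹' K) : Set M) =
        f ⁻¹' ((fun z => (OpenPartialHomeomorph.univUnitBall (θ' z) : E (m + 1))) '' K) := by
      ext x
      constructor
      · rintro ⟨x', hx', rfl⟩
        exact ⟨H x', hx', hback x'⟩
      · rintro ⟨z, hz, hzx⟩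
        have hzx' : (OpenPartialHomeomorph.univUnitBall (θ' z) : E (m + 1)) = f x := hzx
        have hxi : x ∈ (𝓡∂ (m + 1)).interior M := by
          rw [hint, ← hzx']
          exact hub _
        refine ⟨⟨x, hxi⟩, ?_, rfl⟩
        show H ⟨x, hxi⟩ ∈ K
        rw [hforw ⟨x, hxi⟩ z hzx'.symm]
        exact hz
    rw [h3]
    exact (((hK.image (hubc.comp hθ'c)).isClosed).preimage hfc).isCompact
  have hHs : Surjective H := by
    intro z
    obtain ⟨x, hx⟩ := hsurj _ (hub (θ' z))
    have hxi : x ∈ (𝓡∂ (m + 1)).interior M := by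
      rw [hint, hx]
      exact hub _
    exact ⟨⟨x, hxi⟩, hforw ⟨x, hxi⟩ z hx⟩
  refine thinS (sft m) (m := m) (X := (𝓡∂ (m + 1)).interior M) H hHp hHs _
    (hB.preimage (hubc.comp hθ'c)) hT ?_ ?_ ?_
  · intro z hz
    have h3 : H ⁻¹' {z} = {x : (𝓡∂ (m + 1)).interior M |
        f x = OpenPartialHomeomorph.univUnitBall (θ' z)} := by
      ext x
      constructor
      · intro hx
        have hx' : H x = z := hx
        show f x = _
        rw [← hx', hback]
      · intro hx
        exact hforw x z hx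
    rw [h3]
    exact hfibS _ hz (hub _)
  · intro x hx
    have hx' : f x ∉ B := by
      intro h
      apply hx
      show (OpenPartialHomeomorph.univUnitBall (θ' (H x)) : E (m + 1)) ∈ B
      rw [hback]
      exact h
    have h3 : ContMDiffAt (𝓡 (m + 1)) (𝓡 (m + 1)) ∞
        (fun x : (𝓡∂ (m + 1)).interior M => f x) x :=
      (hs x.1 (hlt x) hx').comp x (contMDiff_val (𝓡∂ (m + 1)) x)
    have h4 : ContMDiffAt (𝓡 (m + 1)) (𝓡 (m + 1)) ∞ (fun x : (𝓡∂ (m + 1)).interior M =>
        (OpenPartialHomeomorph.univUnitBall.symm (f x) : E (m + 1))) x :=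
      ContMDiffAt.comp (g := (OpenPartialHomeomorph.univUnitBall.symm :
        E (m + 1) → E (m + 1))) x (hsymm _ (hlt x)).contMDiffAt h3
    exact (hθ.2 _).contMDiffAt.comp x h4
  · intro z hz
    have h3 : H ⁻¹' {z} = {x : (𝓡∂ (m + 1)).interior M |
        f x = OpenPartialHomeomorph.univUnitBall (θ' z)} := by
      ext x
      constructor
      · intro hx
        have hx' : H x = z := hx
        show f x = _
        rw [← hx', hback]
      · intro hx
        exact hforw x z hx
    rw [h3]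
    exact hfib _ hz (hub _)

/-- the main theorem for the interior -/
theorem int_mainS (f : M → E (m + 1)) (hfc : Continuous f)
    (hint : ∀ x, x ∈ (𝓡∂ (m + 1)).interior M ↔ ‖f x‖ < 1) (hsurj : ∀ y, ‖y‖ < 1 → ∃ x, f x = y)
    (B : Set (E (m + 1))) (hB : IsClosed B)
    (hT : μH[1] B = 0 ∨ (B ⊆ ball 0 1 ∧ Thin B))
    (hfibS : ∀ y, y ∉ B → ‖y‖ < 1 → UEmb (m + 1) {x : (𝓡∂ (m + 1)).interior M | f x = y})
    (hs : ∀ x, ‖f x‖ < 1 → f x ∉ B → ContMDiffAt (𝓡∂ (m + 1)) (𝓡 (m + 1)) ∞ f x)
    (hfib : ∀ y ∈ B, ‖y‖ < 1 → Emb (m + 1) {x : (𝓡∂ (m + 1)).interior M | f x = y}) :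
    (∀ K : Set ((𝓡∂ (m + 1)).interior M), IsCompact K → Emb (m + 1) K) ∧
      Nonempty (Diffeomorph (𝓡 (m + 1)) (𝓡 (m + 1)) ((𝓡∂ (m + 1)).interior M) (E (m + 1)) ∞) := by
  have hsymm : ∀ y : E (m + 1), ‖y‖ < 1 →
      ContDiffAt ℝ ∞ (OpenPartialHomeomorph.univUnitBall.symm : E (m + 1) → E (m + 1)) y :=
    fun y hy => (OpenPartialHomeomorph.contDiffOn_univUnitBall_symm (n := ⊤)).contDiffAt
      (isOpen_ball.mem_nhds (mem_ball_zero_iff.2 hy))
  have hub : ∀ y : E (m + 1), ‖(OpenPartialHomeomorph.univUnitBall y : E (m + 1))‖ < 1 := fun y =>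
    mem_ball_zero_iff.1 (OpenPartialHomeomorph.univUnitBall.map_source (mem_univ y))
  have hubc : Continuous (OpenPartialHomeomorph.univUnitBall : E (m + 1) → E (m + 1)) :=
    (OpenPartialHomeomorph.contDiff_univUnitBall (n := 0)).continuous
  rcases hT with hB0 | ⟨hB1, hT⟩
  · refine int_coreS f hfc hint hsurj B hB (fun x => x) (fun x => x) Dif.id continuous_id
      (fun x => rfl) (fun x => rfl) (thin_of_null ?_) hfibS hs hfib
    exact null_preimage hB0 _ (OpenPartialHomeomorph.univUnitBall.symm) hubc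
      (fun x => (hsymm _ (hub x)).of_le (by simp)) (fun x => uub_left _ x)
  · have hBc : IsCompact B :=
      (isCompact_closedBall (0 : E (m + 1)) 1).of_isClosed_subset hB
        (hB1.trans ball_subset_closedBall)
    obtain ⟨R, hR⟩ : ∃ R : ℝ, ∀ y ∈ B,
        ‖(OpenPartialHomeomorph.univUnitBall.symm y : E (m + 1))‖ ≤ R := by
      have hc : ContinuousOn (OpenPartialHomeomorph.univUnitBall.symm : E (m + 1) → E (m + 1))
          B := fun y hy => (hsymm y (mem_ball_zero_iff.1
            (hB1 hy))).continuousAt.continuousWithinAt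
      obtain ⟨R, hR⟩ := (hBc.image_of_continuousOn hc).isBounded.subset_closedBall 0
      refine ⟨R, fun y hy => ?_⟩
      have := hR ⟨y, hy, rfl⟩
      rwa [mem_closedBall_zero_iff] at this
    obtain ⟨G, hGb, hGL, hG⟩ := (Pool.Agent.Y784.SH.ext Pool.Agent.Y248.SH.germ : StExt) (m + 1)
      (OpenPartialHomeomorph.univUnitBall : E (m + 1) → E (m + 1))
      (fun x y hxy => by rw [← uub_left (m + 1) x, ← uub_left (m + 1) y, hxy])
      (LD_uub (m + 1)) R
    obtain ⟨G', hG', hG1, hG2⟩ := Dif.inv ⟨hGb, hGL⟩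
    refine int_coreS f hfc hint hsurj B hB G G' ⟨hGb, hGL⟩
      (continuous_iff_continuousAt.2 fun x => (hG'.2 x).continuousAt) hG1 hG2 ?_ hfibS hs hfib
    have h3 : {z : E (m + 1) | (OpenPartialHomeomorph.univUnitBall (G' z) : E (m + 1)) ∈ B} =
        B := by
      ext z
      constructor
      · intro hz
        have hz' : (OpenPartialHomeomorph.univUnitBall (G' z) : E (m + 1)) ∈ B := hz
        have h4 := hR _ hz'
        rw [uub_left] at h4
        have h5 := hG (G' z) h4
        rw [hG2] at h5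
        rw [h5]
        exact hz'
      · intro hz
        have h4 := hG (OpenPartialHomeomorph.univUnitBall.symm z) (hR z hz)
        rw [uub_right _ (mem_ball_zero_iff.1 (hB1 hz))] at h4
        have h5 : G' z = OpenPartialHomeomorph.univUnitBall.symm z := by
          rw [← hG1 (OpenPartialHomeomorph.univUnitBall.symm z), h4]
        show (OpenPartialHomeomorph.univUnitBall (G' z) : E (m + 1)) ∈ B
        rw [h5, uub_right _ (mem_ball_zero_iff.1 (hB1 hz))]
        exact hz
    rw [h3]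
    exact hT

end final

end Pool.Agent.H827.SF
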