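import Pool.Agent.H827.SF.Key

/-!
# Universally embeddable sets
-/

set_option autoImplicit false

open Set Filter Topology Metric Function
open scoped Manifold ContDiff RealInnerProductSpace

noncomputable section

namespace Pool.Agent.H827.SF

open Pool.Agent.Y522

/-- `F` has, in every smoothly embedded manifold `N` containing it, a neighbourhood which embeds
smoothly in the Euclidean space of the dimension of `N`. -/
def UEmb (n : ℕ) {X : Type} [TopologicalSpace X] [ChartedSpace (E n) X] (F : Set X) : Prop :=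
  ∀ (k : ℕ) (N : Type) [TopologicalSpace N] [ChartedSpace (E k) N], IsManifold (𝓡 k) ∞ N →
    ∀ i : N → X, IsEmbedding i → ContMDiff (𝓡 k) (𝓡 n) ∞ i →
    (∀ x, Injective (mfderiv (𝓡 k) (𝓡 n) i x)) → F ⊆ range i → Emb k (i ⁻¹' F)

section

variable {n : ℕ} {X : Type} [TopologicalSpace X] [ChartedSpace (E n) X]
  [IsManifold (𝓡 n) ∞ X]

theorem UEmb.emb {F : Set X} (h : UEmb n F) : Emb n F := by
  have h1 := h n X inferInstance (fun x => x) IsEmbedding.id contMDiff_id
    (fun x => by
      have : mfderiv (𝓡 n) (𝓡 n) (fun y : X => y) x = ContinuousLinearMap.id ℝ _ := mfderiv_id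
      rw [this]
      exact injective_id) (fun x _ => ⟨x, rfl⟩)
  exact h1

/-- restriction to a submanifold -/
theorem UEmb.comap {m : ℕ} {W : Type} [TopologicalSpace W] [ChartedSpace (E m) W]
    [IsManifold (𝓡 m) ∞ W] {F : Set X} (h : UEmb n F) (i : W → X) (hi : IsEmbedding i)
    (his : ContMDiff (𝓡 m) (𝓡 n) ∞ i) (hid : ∀ x, Injective (mfderiv (𝓡 m) (𝓡 n) i x))
    (hF : F ⊆ range i) : UEmb m (i ⁻¹' F) := by
  intro k N _ _ hN i' hi' his' hid' hF'
  have h1 := h k N hN (fun x => i (i' x)) (hi.comp hi') (his.comp his')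
    (fun x => by
      have h2 : mfderiv (𝓡 k) (𝓡 n) (fun x => i (i' x)) x =
          (mfderiv (𝓡 m) (𝓡 n) i (i' x)).comp (mfderiv (𝓡 k) (𝓡 m) i' x) :=
        mfderiv_comp x (his.mdifferentiableAt (by simp)) (his'.mdifferentiableAt (by simp))
      rw [h2]
      exact (hid _).comp (hid' x))
    (by
      intro y hy
      obtain ⟨w, rfl⟩ := hF hy
      obtain ⟨x, rfl⟩ := hF' hy
      exact ⟨x, rfl⟩)
  exact h1

/-- a discrete universally embeddable set has at most one point -/
theorem UEmb.subsingleton {F : Set X} (h : UEmb n F) (hd : DiscreteTopology F) :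
    F.Subsingleton := by
  let : ChartedSpace (E 0) F := ChartedSpace.ofDiscreteTopology
  have hm : IsManifold (𝓡 0) ∞ F := IsManifold.of_discreteTopology ∞
  obtain ⟨U, k, hU, hFU, hk, -⟩ := h 0 F hm Subtype.val IsEmbedding.subtypeVal
    (fun x => by
      have h1 : (Subtype.val : F → X) =ᶠ[𝓝 x] fun _ => (x : X) := by
        have h2 : ({x} : Set F) ∈ 𝓝 x := (isOpen_discrete _).mem_nhds rfl
        filter_upwards [h2] with y hy
        rw [mem_singleton_iff.1 hy]
      exact contMDiffAt_const.congr_of_eventuallyEq h1)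
    (fun x => fun a b _ => Subsingleton.elim (α := E 0) a b)
    (by rw [Subtype.range_coe])
  intro x hx y hy
  have h3 : (⟨x, hx⟩ : F) = ⟨y, hy⟩ := hk (hFU hx) (hFU hy) (Subsingleton.elim _ _)
  exact congrArg Subtype.val h3

end

/-- `F` is star-shaped after a smooth embedding of a neighbourhood. -/
def Star (n : ℕ) {X : Type} [TopologicalSpace X] [ChartedSpace (E n) X] (F : Set X) : Prop :=
  ∃ (N : ℕ) (U : Set X) (j : X → E N) (p : X), IsOpen U ∧ F ⊆ U ∧ InjOn j U ∧
    (∀ x ∈ U, ContMDiffAt (𝓡 n) (𝓡 N) ∞ j x ∧ Injective (mfderiv (𝓡 n) (𝓡 N) j x)) ∧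
    p ∈ F ∧ StarConvex ℝ (j p) (j '' F)

section

variable {n : ℕ} {X : Type} [TopologicalSpace X] [T2Space X] [ChartedSpace (E n) X]
  [IsManifold (𝓡 n) ∞ X]

/-- **Star-shaped compact sets are universally embeddable.** -/
theorem Star.uEmb {F : Set X} (hF : IsCompact F) (h : Star n F) : UEmb n F := by
  obtain ⟨N, U, j, p, hU, hFU, hj, hjs, hp, hst⟩ := h
  intro k W _ _ hW i hi his hid hFi
  have hT : T2Space W := hi.t2Space
  obtain ⟨w, rfl⟩ := hFi hp
  have hFc : IsCompact (i ⁻¹' F) := (hi.isInducing.isCompact_preimage_iff hFi).2 hF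
  refine emb_of_star (n := k) (N := N) (i ⁻¹' F) (i ⁻¹' U) hFc (hU.preimage hi.continuous)
    (preimage_mono hFU) (fun x => j (i x)) ?_ ?_ ?_ w hp ?_
  · intro x hx y hy hxy
    exact hi.injective (hj hx hy hxy)
  · intro x hx
    exact (hjs _ hx).1.comp x his.contMDiffAt
  · intro x hx
    have h2 : mfderiv (𝓡 k) (𝓡 N) (fun x => j (i x)) x =
        (mfderiv (𝓡 n) (𝓡 N) j (i x)).comp (mfderiv (𝓡 k) (𝓡 n) i x) :=
      mfderiv_comp x ((hjs _ hx).1.mdifferentiableAt (by simp)) (his.mdifferentiableAt (by simp))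
    rw [h2]
    exact (hjs _ hx).2.comp (hid x)
  · have h3 : (fun x => j (i x)) '' (i ⁻¹' F) = j '' F := by
      rw [← image_image (g := j) (f := i), image_preimage_eq_of_subset hFi]
    rw [h3]
    exact hst

end

end Pool.Agent.H827.SF
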