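import Pool.Graph.R_seed8.Y522.Basic

/-!
# A local implicit function: the critical points of `z ↦ ‖B z - l A x‖ ^ 2`
-/

set_option autoImplicit false

open Set Filter Topology Metric Function
open scoped Manifold ContDiff RealInnerProductSpace

noncomputable section

namespace Pool.Agent.H827.SF

open Pool.Agent.Y522

/-- The vector of the numbers `⟪B z - l A x, B' z e_i⟫`. -/
def crit {n N : ℕ} (A B : E n → E N) (l : ℝ) (q : E n × E n) : E n :=
  WithLp.toLp 2 (fun i => ⟪B q.2 - l • A q.1, fderiv ℝ B q.2 (EuclideanSpace.single i 1)⟫)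

theorem clm_eq_zero_of_basis {n N : ℕ} (L : E n →L[ℝ] E N) (u : E N)
    (h : ∀ i, ⟪u, L (EuclideanSpace.single i 1)⟫ = 0) (w : E n) : ⟪u, L w⟫ = 0 := by
  have h1 : w = ∑ i, w i • (EuclideanSpace.single i (1 : ℝ) : E n) := by
    ext k
    simp [Finset.sum_apply, Pi.single_apply]
  rw [h1, map_sum, inner_sum]
  refine Finset.sum_eq_zero fun i _ => ?_
  rw [map_smul, inner_smul_right, h i, mul_zero]

theorem crit_eq_zero {n N : ℕ} (A B : E n → E N) (l : ℝ) (q : E n × E n)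
    (h : ∀ w, ⟪B q.2 - l • A q.1, fderiv ℝ B q.2 w⟫ = 0) : crit A B l q = 0 := by
  ext i
  simp only [crit, PiLp.zero_apply]
  exact h _

theorem contDiffAt_crit {n N : ℕ} {A B : E n → E N} {l : ℝ} {q : E n × E n}
    (hA : ContDiffAt ℝ ∞ A q.1) (hB : ContDiffAt ℝ ∞ B q.2) :
    ContDiffAt ℝ ∞ (crit A B l) q := by
  have h1 : ContDiffAt ℝ ∞ (fun q : E n × E n => A q.1) q :=
    ContDiffAt.comp (g := A) q hA contDiffAt_fst
  have h2 : ContDiffAt ℝ ∞ (fun q : E n × E n => B q.2) q :=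
    ContDiffAt.comp (g := B) q hB contDiffAt_snd
  have h3 : ContDiffAt ℝ ∞ (fun q : E n × E n => fderiv ℝ B q.2) q :=
    ContDiffAt.comp (g := fderiv ℝ B) q (hB.fderiv_right (m := ∞) (by simp)) contDiffAt_snd
  refine (contDiffAt_piLp 2).2 fun i => ?_
  have h4 : ContDiffAt ℝ ∞ (fun q : E n × E n => B q.2 - l • A q.1) q :=
    h2.sub (h1.const_smul l)
  exact h4.inner ℝ (h3.clm_apply contDiffAt_const)

/-- **Local lemma.** -/
theorem implicit_local {n N : ℕ} (A B : E n → E N) (a b : E n) (l : ℝ) (hl : l ≠ 0)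
    (hA : ∀ᶠ x in 𝓝 a, ContDiffAt ℝ ∞ A x) (hB : ∀ᶠ z in 𝓝 b, ContDiffAt ℝ ∞ B z)
    (h0 : B b = l • A a) (hBi : Injective (fderiv ℝ B b))
    (hAB : ∀ v, v ≠ 0 → ∃ w, ⟪fderiv ℝ A a v, fderiv ℝ B b w⟫ ≠ 0) :
    ∃ ζ : E n → E n, LD n ζ a ∧ ζ a = b ∧ ∃ P ∈ 𝓝 a, ∃ Q ∈ 𝓝 b, ∀ x ∈ P, ∀ z ∈ Q,
      (∀ w, ⟪B z - l • A x, fderiv ℝ B z w⟫ = 0) → z = ζ x := by
  have hn : (∞ : WithTop ℕ∞) ≠ 0 := by simp
  set T : E n × E n → E n := crit A B l with hT
  set Θ : E n × E n → E n × E n := fun q => (q.1, T q) with hΘ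
  set LA := fderiv ℝ A a with hLA
  set LB := fderiv ℝ B b with hLB
  have hT0 : T (a, b) = 0 := by
    ext i
    simp [hT, crit, h0]
  have hΘ0 : Θ (a, b) = (a, 0) := by simp only [hΘ, hT0]
  -- smoothness near `(a, b)`
  have hTs : ∀ᶠ q in 𝓝 (a, b), ContDiffAt ℝ ∞ Θ q := by
    have h1 : ∀ᶠ q : E n × E n in 𝓝 (a, b), ContDiffAt ℝ ∞ A q.1 :=
      (continuous_fst.tendsto (a, b)).eventually hA
    have h2 : ∀ᶠ q : E n × E n in 𝓝 (a, b), ContDiffAt ℝ ∞ B q.2 :=
      (continuous_snd.tendsto (a, b)).eventually hB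
    filter_upwards [h1, h2] with q hq1 hq2
    exact contDiffAt_fst.prodMk (contDiffAt_crit hq1 hq2)
  have hΘs : ContDiffAt ℝ ∞ Θ (a, b) := hTs.self_of_nhds
  have hTd : DifferentiableAt ℝ T (a, b) :=
    (contDiffAt_crit hA.self_of_nhds hB.self_of_nhds).differentiableAt (by simp)
  -- the derivative of `T`
  have hT' : ∀ (u v : E n) (i : Fin n), (fderiv ℝ T (a, b) (u, v)) i =
      ⟪LB v - l • LA u, LB (EuclideanSpace.single i 1)⟫ := by
    intro u v i
    have h1 : HasFDerivAt (fun q : E n × E n => A q.1)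
        (LA.comp (ContinuousLinearMap.fst ℝ (E n) (E n))) (a, b) :=
      HasFDerivAt.comp (g := A) (a, b) (hA.self_of_nhds.differentiableAt (by simp)).hasFDerivAt
        hasFDerivAt_fst
    have h2 : HasFDerivAt (fun q : E n × E n => B q.2)
        (LB.comp (ContinuousLinearMap.snd ℝ (E n) (E n))) (a, b) :=
      HasFDerivAt.comp (g := B) (a, b) (hB.self_of_nhds.differentiableAt (by simp)).hasFDerivAt
        hasFDerivAt_snd
    have h3 : HasFDerivAt (fun q : E n × E n => B q.2 - l • A q.1)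
        (LB.comp (ContinuousLinearMap.snd ℝ (E n) (E n)) -
          l • LA.comp (ContinuousLinearMap.fst ℝ (E n) (E n))) (a, b) := h2.sub (h1.const_smul l)
    have h4 : DifferentiableAt ℝ (fun q : E n × E n =>
        fderiv ℝ B q.2 (EuclideanSpace.single i (1 : ℝ))) (a, b) := by
      have h5 : ContDiffAt ℝ ∞ (fun q : E n × E n => fderiv ℝ B q.2) (a, b) :=
        ContDiffAt.comp (g := fderiv ℝ B) (a, b)
          (hB.self_of_nhds.fderiv_right (m := ∞) (by simp)) contDiffAt_snd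
      exact (h5.clm_apply contDiffAt_const).differentiableAt (by simp)
    have h6 := h3.inner ℝ h4.hasFDerivAt
    have h7 : HasFDerivAt (fun q : E n × E n => (T q) i)
        ((EuclideanSpace.proj i : E n →L[ℝ] ℝ).comp (fderiv ℝ T (a, b))) (a, b) :=
      (EuclideanSpace.proj i : E n →L[ℝ] ℝ).hasFDerivAt.comp (a, b) hTd.hasFDerivAt
    have h8 := h7.unique h6
    have h9 := congrArg (fun L : E n × E n →L[ℝ] ℝ => L (u, v)) h8
    simp only [ContinuousLinearMap.coe_comp, Function.comp_apply, PiLp.proj_apply] at h9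
    rw [h9]
    simp [fderivInnerCLM_apply, h0]
    rfl
  -- the derivative of `Θ`
  set D : E n × E n →L[ℝ] E n × E n :=
    (ContinuousLinearMap.fst ℝ (E n) (E n)).prod (fderiv ℝ T (a, b)) with hD
  have hΘD : HasFDerivAt Θ D (a, b) := hasFDerivAt_fst.prodMk hTd.hasFDerivAt
  have hself : ∀ v : E n, (∀ i, ⟪LB v, LB (EuclideanSpace.single i 1)⟫ = 0) → v = 0 := by
    intro v hv
    have h1 := clm_eq_zero_of_basis LB (LB v) hv v
    have h2 : LB v = LB 0 := by rw [inner_self_eq_zero.1 h1, map_zero]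
    exact hBi h2
  have hDi : Injective (D : E n × E n →ₗ[ℝ] E n × E n) := by
    rw [← LinearMap.ker_eq_bot, LinearMap.ker_eq_bot']
    rintro ⟨u, v⟩ huv
    have h1 : D (u, v) = 0 := huv
    have h2 : u = 0 := congrArg Prod.fst h1
    have h3 : fderiv ℝ T (a, b) (u, v) = 0 := congrArg Prod.snd h1
    subst h2
    have h4 : v = 0 := hself v fun i => by
      have := hT' 0 v i
      rw [h3] at this
      simpa using this.symm
    rw [h4]
    rfl
  set De : (E n × E n) ≃L[ℝ] (E n × E n) :=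
    (LinearEquiv.ofInjectiveEndo (D : E n × E n →ₗ[ℝ] E n × E n) hDi).toContinuousLinearEquiv
    with hDe
  have hDeD : (De : E n × E n →L[ℝ] E n × E n) = D := by
    ext q <;> rfl
  have hΘD' : HasFDerivAt Θ (De : E n × E n →L[ℝ] E n × E n) (a, b) := by rw [hDeD]; exact hΘD
  set Φ := hΘs.toOpenPartialHomeomorph Θ hΘD' hn with hΦ
  have hsrc : (a, b) ∈ Φ.source := hΘs.mem_toOpenPartialHomeomorph_source hΘD' hn
  have hcoe : (Φ : E n × E n → E n × E n) = Θ := hΘs.toOpenPartialHomeomorph_coe hΘD' hn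
  have htgt : (a, (0 : E n)) ∈ Φ.target := by
    have h1 := Φ.map_source hsrc
    rw [hcoe, hΘ0] at h1
    exact h1
  have hsymm0 : Φ.symm (a, 0) = (a, b) := by
    have h1 := Φ.left_inv hsrc
    rw [hcoe, hΘ0] at h1
    exact h1
  -- smoothness of the inverse near `(a, 0)`
  have hinv : ∀ᶠ y in 𝓝 (a, (0 : E n)), ContDiffAt ℝ ∞ Φ.symm y := by
    have hcont : ContinuousAt (fderiv ℝ Θ) (a, b) :=
      (hΘs.fderiv_right (m := 0) (by simp)).continuousAt
    have h2 : ∀ᶠ y in 𝓝 (a, b), fderiv ℝ Θ y ∈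
        range ((↑) : ((E n × E n) ≃L[ℝ] (E n × E n)) → (E n × E n →L[ℝ] E n × E n)) := by
      apply hcont
      rw [hΘD'.fderiv]
      exact ContinuousLinearEquiv.nhds De
    have h3 : Tendsto Φ.symm (𝓝 (a, (0 : E n))) (𝓝 (a, b)) := by
      have := Φ.symm.continuousAt (x := (a, (0 : E n))) htgt
      rw [ContinuousAt, hsymm0] at this
      exact this
    filter_upwards [h3.eventually h2, h3.eventually hTs, Φ.open_target.mem_nhds htgt]
      with y hy1 hy2 hy3
    obtain ⟨C, hC⟩ := hy1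
    refine Φ.contDiffAt_symm hy3 (f₀' := C) ?_ ?_
    · rw [hcoe, hC]
      exact (hy2.differentiableAt (by simp)).hasFDerivAt
    · rw [hcoe]
      exact hy2
  set ζ : E n → E n := fun x => (Φ.symm (x, 0)).2 with hζ
  have hζa : ζ a = b := by simp only [hζ, hsymm0]
  have hemb : Continuous fun x : E n => (x, (0 : E n)) := by fun_prop
  have hζs : ∀ᶠ x in 𝓝 a, ContDiffAt ℝ ∞ ζ x := by
    have h1 : ∀ᶠ x in 𝓝 a, ContDiffAt ℝ ∞ Φ.symm (x, (0 : E n)) :=
      (hemb.tendsto a).eventually hinv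
    filter_upwards [h1] with x hx
    have h2 : ContDiffAt ℝ ∞ (fun x : E n => (x, (0 : E n))) x :=
      contDiffAt_id.prodMk contDiffAt_const
    exact (contDiffAt_snd).comp x (ContDiffAt.comp (g := Φ.symm) x hx h2)
  -- the equation
  have heq : ∀ᶠ x in 𝓝 a, T (x, ζ x) = 0 := by
    have h1 : ∀ᶠ x in 𝓝 a, (x, (0 : E n)) ∈ Φ.target :=
      (hemb.tendsto a).eventually_mem (Φ.open_target.mem_nhds htgt)
    filter_upwards [h1] with x hx
    have h2 := Φ.right_inv hx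
    rw [hcoe] at h2
    have h3 : (Φ.symm (x, 0)).1 = x := congrArg Prod.fst h2
    have h4 : T (Φ.symm (x, 0)) = 0 := congrArg Prod.snd h2
    have h5 : Φ.symm (x, 0) = (x, ζ x) := Prod.ext h3 rfl
    rw [← h5]
    exact h4
  have hζd : DifferentiableAt ℝ ζ a := hζs.self_of_nhds.differentiableAt (by simp)
  have hζ' : ∀ u, fderiv ℝ T (a, b) (u, fderiv ℝ ζ a u) = 0 := by
    intro u
    have h1 : HasFDerivAt (fun x => (x, ζ x))
        ((ContinuousLinearMap.id ℝ (E n)).prod (fderiv ℝ ζ a)) a :=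
      (hasFDerivAt_id a).prodMk hζd.hasFDerivAt
    have h2 : HasFDerivAt T (fderiv ℝ T (a, b)) (a, ζ a) := by rw [hζa]; exact hTd.hasFDerivAt
    have h3 := HasFDerivAt.comp (g := T) a h2 h1
    have h4 : HasFDerivAt (T ∘ fun x => (x, ζ x)) (0 : E n →L[ℝ] E n) a :=
      (hasFDerivAt_const (0 : E n) a).congr_of_eventuallyEq heq
    have h5 := congrArg (fun L : E n →L[ℝ] E n => L u) (h3.unique h4)
    simpa using h5
  have hζi : Injective (fderiv ℝ ζ a : E n →ₗ[ℝ] E n) := by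
    rw [← LinearMap.ker_eq_bot, LinearMap.ker_eq_bot']
    intro u hu
    have hu' : fderiv ℝ ζ a u = 0 := hu
    by_contra hne
    obtain ⟨w, hw⟩ := hAB u hne
    apply hw
    have h1 : ∀ i, ⟪LA u, LB (EuclideanSpace.single i 1)⟫ = 0 := by
      intro i
      have h2 := hT' u (fderiv ℝ ζ a u) i
      rw [hζ', hu', map_zero, zero_sub, inner_neg_left, inner_smul_left] at h2
      have h3 : (0 : ℝ) = -(l * ⟪LA u, LB (EuclideanSpace.single i 1)⟫) := by simpa using h2
      have h4 : l * ⟪LA u, LB (EuclideanSpace.single i 1)⟫ = 0 := by linarith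
      exact (mul_eq_zero.1 h4).resolve_left hl
    exact clm_eq_zero_of_basis LB (LA u) h1 w
  refine ⟨ζ, ?_, hζa, ?_⟩
  · refine LD_of_contDiffAt hζs
      (LinearEquiv.ofInjectiveEndo (fderiv ℝ ζ a : E n →ₗ[ℝ] E n) hζi).toContinuousLinearEquiv ?_
    have h1 : ((LinearEquiv.ofInjectiveEndo (fderiv ℝ ζ a : E n →ₗ[ℝ] E n)
        hζi).toContinuousLinearEquiv : E n →L[ℝ] E n) = fderiv ℝ ζ a := by
      ext q
      rfl
    rw [h1]
    exact hζd.hasFDerivAt
  · have h1 : Φ.source ∈ 𝓝 (a, b) := Φ.open_source.mem_nhds hsrc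
    rw [mem_nhds_prod_iff] at h1
    obtain ⟨P, hP, Q, hQ, hPQ⟩ := h1
    refine ⟨P, hP, Q, hQ, fun x hx z hz h => ?_⟩
    have h2 : (x, z) ∈ Φ.source := hPQ ⟨hx, hz⟩
    have h3 : Θ (x, z) = (x, 0) := by
      have : T (x, z) = 0 := crit_eq_zero A B l (x, z) h
      simp only [hΘ, this]
    have h4 := Φ.left_inv h2
    rw [hcoe, h3] at h4
    simp only [hζ, h4]

end Pool.Agent.H827.SF
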