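import Pool.Agent.H827.SF.Implicit
import Pool.Graph.R_seed8.Y641.SH.Level
import Pool.Graph.R_seed8.Y522.Tools

/-!
# Compact sets which are star-shaped after an embedding have neighbourhoods which embed in `ℝ^n`
-/

set_option autoImplicit false

open Set Filter Topology Metric Function
open scoped Manifold ContDiff RealInnerProductSpace

noncomputable section

namespace Pool.Agent.H827.SF

open Pool.Agent.Y522

section basic

variable {n : ℕ} {X : Type} [TopologicalSpace X] [ChartedSpace (E n) X]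

theorem emb_of_injOn [T2Space X] {F : Set X} (hF : IsCompact F) (f : X → E n) (hi : InjOn f F)
    (hL : ∀ x ∈ F, LD n f x) : Emb n F := by
  have hloc : ∀ x ∈ F, ∃ u ∈ 𝓝 x, InjOn f u := fun x hx => (hL x hx).eventually_injOn
  obtain ⟨t, ht, hti⟩ := hi.exists_mem_nhdsSet hF (fun x hx => (hL x hx).continuousAt) hloc
  have hO : IsOpen {x | LD n f x} := isOpen_iff_mem_nhds.2 fun x hx => LD.eventually hx
  refine ⟨interior t ∩ {x | LD n f x}, f, isOpen_interior.inter hO, ?_,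
    hti.mono (fun x hx => interior_subset hx.1), fun x hx => hx.2⟩
  exact fun x hx => ⟨subset_interior_iff_mem_nhdsSet.2 ht hx, hL x hx⟩

variable [IsManifold (𝓡 n) ∞ X]

theorem LD_chart' (x₀ x : X) (hx : x ∈ (chartAt (E n) x₀).source) :
    LD n (chartAt (E n) x₀) x :=
  ⟨Pool.Agent.Y641.SH.chPD x₀, hx, fun _ _ => rfl⟩

theorem LD_chart_symm (x₀ : X) (z : E n) (hz : z ∈ (chartAt (E n) x₀).target) :
    LD n (chartAt (E n) x₀).symm z :=
  ⟨(Pool.Agent.Y641.SH.chPD x₀).symm, hz, fun _ _ => rfl⟩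

end basic

/-- the local representation of `j - q` in the chart at `x₀` -/
def rep {n N : ℕ} {X : Type} [TopologicalSpace X] [ChartedSpace (E n) X] (j : X → E N) (q : E N)
    (x₀ : X) : E n → E N := fun u => j ((chartAt (E n) x₀).symm u) - q

section rep

variable {n N : ℕ} {X : Type} [TopologicalSpace X] [ChartedSpace (E n) X]
  [IsManifold (𝓡 n) ∞ X] (j : X → E N) (q : E N) (x₀ : X)

theorem rep_chart {x : X} (hx : x ∈ (chartAt (E n) x₀).source) :
    rep (n := n) j q x₀ (chartAt (E n) x₀ x) = j x - q := by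
  simp only [rep, (chartAt (E n) x₀).left_inv hx]

theorem rep_smooth {x : X} (hx : x ∈ (chartAt (E n) x₀).source)
    (hj : ContMDiffAt (𝓡 n) (𝓡 N) ∞ j x) :
    ContDiffAt ℝ ∞ (rep (n := n) j q x₀) (chartAt (E n) x₀ x) := by
  set c := chartAt (E n) x₀ with hc
  have h1 : ContMDiffAt (𝓡 n) (𝓡 n) ∞ c.symm (c x) :=
    (LD_chart_symm x₀ (c x) (c.map_source hx)).contMDiffAt
  have h2 : ContMDiffAt (𝓡 n) (𝓡 N) ∞ (fun u => j (c.symm u)) (c x) := by
    refine ContMDiffAt.comp (g := j) (c x) ?_ h1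
    rw [c.left_inv hx]
    exact hj
  exact (contMDiffAt_iff_contDiffAt.1 h2).sub contDiffAt_const

theorem rep_inj {x : X} (hx : x ∈ (chartAt (E n) x₀).source)
    (hj : ContMDiffAt (𝓡 n) (𝓡 N) ∞ j x) (hjd : Injective (mfderiv (𝓡 n) (𝓡 N) j x)) :
    Injective (fderiv ℝ (rep (n := n) j q x₀) (chartAt (E n) x₀ x)) := by
  set c := chartAt (E n) x₀ with hc
  have hL : LD n c.symm (c x) := LD_chart_symm x₀ (c x) (c.map_source hx)
  have h1 : fderiv ℝ (rep (n := n) j q x₀) (c x) = fderiv ℝ (fun u => j (c.symm u)) (c x) := by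
    unfold rep
    exact fderiv_sub_const q
  rw [h1]
  have h2 : mfderiv (𝓡 n) (𝓡 N) (fun u => j (c.symm u)) (c x) =
      (mfderiv (𝓡 n) (𝓡 N) j (c.symm (c x))).comp (mfderiv (𝓡 n) (𝓡 n) c.symm (c x)) := by
    refine mfderiv_comp (c x) ?_ hL.mdifferentiableAt
    rw [c.left_inv hx]
    exact hj.mdifferentiableAt (by simp)
  rw [mfderiv_eq_fderiv] at h2
  intro a b hab
  rw [h2] at hab
  refine hL.mfderiv_injective ?_
  have h3 : Injective (mfderiv (𝓡 n) (𝓡 N) j (c.symm (c x))) := by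
    rw [c.left_inv hx]
    exact hjd
  exact h3 hab

end rep

/-- nearby injective linear maps have nowhere orthogonal images -/
theorem nondeg {n N : ℕ} (D : E n → (E n →L[ℝ] E N)) (a : E n) (hc : ContinuousAt D a)
    (hi : Injective (D a)) : ∃ V : Set (E n), IsOpen V ∧ a ∈ V ∧ ∀ u ∈ V, ∀ u' ∈ V,
      ∀ v, v ≠ 0 → ∃ w, ⟪D u v, D u' w⟫ ≠ 0 := by
  obtain ⟨K, hK, hKa⟩ := LinearMap.exists_antilipschitzWith (D a : E n →ₗ[ℝ] E N)
    (LinearMap.ker_eq_bot.2 hi)
  have hK0 : (0 : ℝ) < K := hK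
  have h1 : ∀ᶠ u in 𝓝 a, ‖D u - D a‖ < 1 / (4 * K) := by
    have h2 : ContinuousAt (fun u => ‖D u - D a‖) a := (hc.sub continuousAt_const).norm
    refine h2.eventually (gt_mem_nhds ?_)
    simp only [sub_self, norm_zero]
    positivity
  obtain ⟨V, hV, hVo, haV⟩ := _root_.mem_nhds_iff.1 h1
  refine ⟨V, hVo, haV, fun u hu u' hu' v hv => ⟨v, ?_⟩⟩
  have hv0 : 0 < ‖v‖ := norm_pos_iff.2 hv
  have h3 : ‖v‖ ≤ K * ‖D a v‖ := by
    have := hKa.le_mul_dist v 0
    simpa using this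
  have hu1 : ‖D u - D a‖ < 1 / (4 * K) := hV hu
  have hu2 : ‖D u' - D a‖ < 1 / (4 * K) := hV hu'
  have h4 : ‖(D u - D a) v‖ ≤ 1 / (4 * K) * ‖v‖ :=
    ((D u - D a).le_opNorm v).trans (mul_le_mul_of_nonneg_right hu1.le hv0.le)
  have h5 : ‖(D u' - D a) v‖ ≤ 1 / (4 * K) * ‖v‖ :=
    ((D u' - D a).le_opNorm v).trans (mul_le_mul_of_nonneg_right hu2.le hv0.le)
  have h6 : ‖D u v - D u' v‖ ≤ 1 / (2 * K) * ‖v‖ := by
    have e : D u v - D u' v = (D u - D a) v - (D u' - D a) v := by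
      simp
    rw [e]
    refine (norm_sub_le _ _).trans ((add_le_add h4 h5).trans (le_of_eq ?_))
    field_simp
    ring
  have h7 : 3 / (4 * K) * ‖v‖ ≤ ‖D u v‖ := by
    have e : D a v = D u v - (D u - D a) v := by simp
    have h8 : ‖D a v‖ ≤ ‖D u v‖ + ‖(D u - D a) v‖ := by
      conv_lhs => rw [e]
      exact norm_sub_le _ _
    have h9 : 1 / K * ‖v‖ ≤ ‖D a v‖ := by
      rw [div_mul_eq_mul_div, one_mul, div_le_iff₀ hK0]
      linarith [mul_comm (K : ℝ) ‖D a v‖]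
    have h10 : 3 / (4 * K) * ‖v‖ = 1 / K * ‖v‖ - 1 / (4 * K) * ‖v‖ := by
      field_simp
      ring
    rw [h10]
    linarith
  have h11 : 1 / (2 * K) * ‖v‖ < 3 / (4 * K) * ‖v‖ := by
    have : (1 : ℝ) / (2 * K) < 3 / (4 * K) := by
      rw [div_lt_div_iff₀ (by positivity) (by positivity)]
      linarith
    exact mul_lt_mul_of_pos_right this hv0
  have h12 : ‖D u v - D u' v‖ < ‖D u v‖ := by linarith
  have h13 : 0 < ‖D u v‖ := lt_of_le_of_lt (norm_nonneg _) h12
  have h14 : ⟪D u v, D u' v⟫ = ‖D u v‖ ^ 2 - ⟪D u v, D u v - D u' v⟫ := by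
    rw [inner_sub_right, real_inner_self_eq_norm_sq]
    ring
  have h15 : ⟪D u v, D u v - D u' v⟫ ≤ ‖D u v‖ * ‖D u v - D u' v‖ := real_inner_le_norm _ _
  have h16 : ‖D u v‖ * ‖D u v - D u' v‖ < ‖D u v‖ ^ 2 := by
    rw [pow_two]
    exact mul_lt_mul_of_pos_left h12 h13
  rw [h14]
  linarith

section key

variable {n N : ℕ} {X : Type} [TopologicalSpace X] [T2Space X] [ChartedSpace (E n) X]
  [IsManifold (𝓡 n) ∞ X]

/-- the retraction step -/
theorem retract (F U : Set X) (hF : IsCompact F) (hU : IsOpen U) (hFU : F ⊆ U) (j : X → E N)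
    (hj : InjOn j U) (hjs : ∀ x ∈ U, ContMDiffAt (𝓡 n) (𝓡 N) ∞ j x)
    (hjd : ∀ x ∈ U, Injective (mfderiv (𝓡 n) (𝓡 N) j x)) (q : E N) (hne : F.Nonempty) :
    ∃ l : ℝ, 0 < l ∧ l < 1 ∧ ∃ ψ : X → X, ∀ x ∈ F, ∀ z ∈ F, j z - q = l • (j x - q) →
      ψ x = z ∧ LD n ψ x := by
  have hjc : ContinuousOn j U := fun x hx => (hjs x hx).continuousAt.continuousWithinAt
  -- local data
  have hloc : ∀ x₀ : F, ∃ O : Set X, IsOpen O ∧ (x₀ : X) ∈ O ∧ O ⊆ U ∧
      O ⊆ (chartAt (E n) (x₀ : X)).source ∧ ∀ x ∈ O, ∀ z ∈ O, ∀ v, v ≠ 0 → ∃ w,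
        ⟪fderiv ℝ (rep (n := n) j q x₀) (chartAt (E n) (x₀ : X) x) v,
          fderiv ℝ (rep (n := n) j q x₀) (chartAt (E n) (x₀ : X) z) w⟫ ≠ 0 := by
    rintro ⟨x₀, hx₀⟩
    set c := chartAt (E n) x₀ with hc
    have hxs : x₀ ∈ c.source := mem_chart_source _ x₀
    have h1 := rep_smooth (n := n) j q x₀ hxs (hjs x₀ (hFU hx₀))
    have h2 := rep_inj (n := n) j q x₀ hxs (hjs x₀ (hFU hx₀)) (hjd x₀ (hFU hx₀))
    obtain ⟨V, hV, haV, hVV⟩ := nondeg (fderiv ℝ (rep (n := n) j q x₀)) (c x₀)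
      (h1.fderiv_right (m := 0) (by simp)).continuousAt h2
    refine ⟨(c.source ∩ c ⁻¹' V) ∩ U, (c.isOpen_inter_preimage hV).inter hU,
      ⟨⟨hxs, haV⟩, hFU hx₀⟩, inter_subset_right, fun x hx => hx.1.1, ?_⟩
    intro x hx z hz v hv
    exact hVV _ hx.1.2 _ hz.1.2 v hv
  choose O hO hxO hOU hOs hOd using hloc
  -- Lebesgue number
  obtain ⟨δ, hδ, hδ'⟩ : ∃ δ : ℝ, 0 < δ ∧ ∀ x ∈ F, ∀ z ∈ F, dist (j x) (j z) < δ →
      ∃ i : F, x ∈ O i ∧ z ∈ O i := by
    have hVo : ∀ i : F, IsOpen (j '' (F \ O i))ᶜ := fun i =>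
      ((hF.diff (hO i)).image_of_continuousOn
        (hjc.mono (sdiff_subset.trans hFU))).isClosed.isOpen_compl
    obtain ⟨δ, hδ, hδ'⟩ := lebesgue_number_lemma_of_metric (s := j '' F)
      (c := fun i : F => (j '' (F \ O i))ᶜ) (hF.image_of_continuousOn (hjc.mono hFU)) hVo
      (by
        rintro _ ⟨x, hx, rfl⟩
        refine mem_iUnion.2 ⟨⟨x, hx⟩, ?_⟩
        rintro ⟨z, ⟨hz, hzO⟩, hzx⟩
        rw [hj (hFU hz) (hFU hx) hzx] at hzO
        exact hzO (hxO ⟨x, hx⟩))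
    refine ⟨δ, hδ, fun x hx z hz hxz => ?_⟩
    obtain ⟨i, hi⟩ := hδ' (j x) ⟨x, hx, rfl⟩
    refine ⟨i, ?_, ?_⟩
    · by_contra hcon
      exact hi (mem_ball_self hδ) ⟨x, ⟨hx, hcon⟩, rfl⟩
    · by_contra hcon
      refine hi (show j z ∈ ball (j x) δ from ?_) ⟨z, ⟨hz, hcon⟩, rfl⟩
      rw [mem_ball, dist_comm]
      exact hxz
  -- the factor
  obtain ⟨R, hR0, hR⟩ : ∃ R : ℝ, 0 < R ∧ ∀ x ∈ F, ‖j x - q‖ ≤ R := by
    obtain ⟨R, hR⟩ := (hF.image_of_continuousOn (hjc.mono hFU)).isBounded.subset_closedBall q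
    refine ⟨|R| + 1, by positivity, fun x hx => ?_⟩
    have h1 := hR ⟨x, hx, rfl⟩
    rw [mem_closedBall, dist_eq_norm] at h1
    linarith [le_abs_self R]
  set e : ℝ := min (1 / 2) (δ / (2 * R)) with he
  have he0 : 0 < e := by positivity
  have he1 : e ≤ 1 / 2 := min_le_left _ _
  have he2 : e * R < δ := by
    have h1 : e ≤ δ / (2 * R) := min_le_right _ _
    have h2 : e * R ≤ δ / (2 * R) * R := mul_le_mul_of_nonneg_right h1 hR0.le
    have h3 : δ / (2 * R) * R = δ / 2 := by field_simp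
    linarith
  set l : ℝ := 1 - e with hl
  have hl0 : 0 < l := by linarith
  have hgood : ∀ x ∈ F, ∀ z ∈ F, j z - q = l • (j x - q) → ∃ i : F, x ∈ O i ∧ z ∈ O i := by
    intro x hx z hz hxz
    refine hδ' x hx z hz ?_
    have h1 : j x - j z = e • (j x - q) := by
      have h2 : j x - j z = (j x - q) - (j z - q) := by abel
      rw [h2, hxz, hl, sub_smul, one_smul]
      abel
    rw [dist_eq_norm, h1, norm_smul, Real.norm_of_nonneg he0.le]
    exact (mul_le_mul_of_nonneg_left (hR x hx) he0.le).trans_lt he2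
  -- the minimizers
  have : LocallyCompactSpace X := ChartedSpace.locallyCompactSpace (E n) X
  obtain ⟨K, hK, hFK, hKU⟩ := exists_compact_between hF hU hFU
  have hKne : K.Nonempty := hne.mono (hFK.trans interior_subset)
  have hmin : ∀ y : X, ∃ z ∈ K, ∀ u ∈ K, ‖j z - q - l • (j y - q)‖ ≤ ‖j u - q - l • (j y - q)‖ := by
    intro y
    have hc : ContinuousOn (fun z => ‖j z - q - l • (j y - q)‖) K :=
      (((hjc.mono hKU).sub continuousOn_const).sub continuousOn_const).norm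
    obtain ⟨z, hz, hzm⟩ := hK.exists_isMinOn hKne hc
    exact ⟨z, hz, fun u hu => hzm hu⟩
  choose ψ hψK hψm using hmin
  refine ⟨l, hl0, by linarith, ψ, fun x hx z hz hxz => ?_⟩
  obtain ⟨i, hxi, hzi⟩ := hgood x hx z hz hxz
  set c := chartAt (E n) (i : X) with hc
  set A : E n → E N := rep (n := n) j q i with hA
  have hAs : ∀ y ∈ O i, ContDiffAt ℝ ∞ A (c y) := fun y hy =>
    rep_smooth (n := n) j q i (hOs i hy) (hjs y (hOU i hy))
  have hAev : ∀ y ∈ O i, ∀ᶠ u in 𝓝 (c y), ContDiffAt ℝ ∞ A u := by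
    intro y hy
    have h1 : c.target ∩ c.symm ⁻¹' (O i) ∈ 𝓝 (c y) := by
      refine (c.symm.isOpen_inter_preimage (hO i)).mem_nhds ⟨c.map_source (hOs i hy), ?_⟩
      show c.symm (c y) ∈ O i
      rw [c.left_inv (hOs i hy)]
      exact hy
    filter_upwards [h1] with u hu
    have h2 := hAs _ hu.2
    rwa [c.right_inv hu.1] at h2
  have hAc : ∀ y ∈ c.source, A (c y) = j y - q := fun y hy => rep_chart (n := n) j q i hy
  obtain ⟨ζ, hζL, hζ0, P, hP, Q, hQ, hPQ⟩ := implicit_local A A (c x) (c z) l hl0.ne'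
    (hAev x hxi) (hAev z hzi) (by rw [hAc x (hOs i hxi), hAc z (hOs i hzi), hxz])
    (rep_inj (n := n) j q i (hOs i hzi) (hjs z (hOU i hzi)) (hjd z (hOU i hzi)))
    (hOd i x hxi z hzi)
  -- localisation of the minimizers
  set W : Set X := interior K ∩ (O i ∩ (c.source ∩ c ⁻¹' (interior Q))) with hW
  have hWo : IsOpen W :=
    isOpen_interior.inter ((hO i).inter (c.isOpen_inter_preimage isOpen_interior))
  have hzW : z ∈ W := ⟨hFK hz, hzi, hOs i hzi, mem_interior_iff_mem_nhds.2 hQ⟩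
  have hev : ∀ᶠ y in 𝓝 x, ψ y ∈ W := by
    have hK' : IsCompact (K \ W) := hK.diff hWo
    obtain ⟨m, hm, hm'⟩ : ∃ m : ℝ, 0 < m ∧ ∀ u ∈ K \ W, m ≤ ‖j u - j z‖ := by
      rcases (K \ W).eq_empty_or_nonempty with h0 | h0
      · exact ⟨1, one_pos, fun u hu => by rw [h0] at hu; exact hu.elim⟩
      · have hcc : ContinuousOn (fun u => ‖j u - j z‖) (K \ W) :=
          ((hjc.mono (sdiff_subset.trans hKU)).sub continuousOn_const).norm
        obtain ⟨u, hu, hum⟩ := hK'.exists_isMinOn h0 hcc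
        refine ⟨‖j u - j z‖, norm_pos_iff.2 (sub_ne_zero.2 fun h => ?_), fun v hv => hum hv⟩
        have h1 := hj (hKU hu.1) (hFU hz) h
        rw [h1] at hu
        exact hu.2 hzW
    have h1 : ContinuousAt (fun y => ‖l • (j y - q) - l • (j x - q)‖) x := by
      have h2 : ContinuousAt j x := (hjs x (hFU hx)).continuousAt
      exact (((h2.sub continuousAt_const).const_smul l).sub continuousAt_const).norm
    have h2 : ∀ᶠ y in 𝓝 x, ‖l • (j y - q) - l • (j x - q)‖ < m / 2 := by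
      refine h1.eventually (gt_mem_nhds ?_)
      simp only [sub_self, norm_zero]
      positivity
    filter_upwards [h2] with y hy
    by_contra hcon
    have h3 := hψm y z (interior_subset (hFK hz))
    have h4 : ‖j z - q - l • (j y - q)‖ < m / 2 := by
      rw [hxz, ← norm_neg, neg_sub]
      exact hy
    have h5 : m ≤ ‖j (ψ y) - j z‖ := hm' _ ⟨hψK y, hcon⟩
    have h6 : j (ψ y) - j z = (j (ψ y) - q - l • (j y - q)) - (j z - q - l • (j y - q)) := by abel
    have h7 : ‖j (ψ y) - j z‖ ≤ ‖j (ψ y) - q - l • (j y - q)‖ + ‖j z - q - l • (j y - q)‖ := by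
      rw [h6]
      exact norm_sub_le _ _
    linarith
  have hcP : ∀ᶠ y in 𝓝 x, c y ∈ P := (c.continuousAt (hOs i hxi)).eventually_mem hP
  have hψζ : ∀ᶠ y in 𝓝 x, ψ y = c.symm (ζ (c y)) := by
    filter_upwards [hev, hcP, (hO i).mem_nhds hxi] with y hy hyP hyO
    obtain ⟨hyK, hyO', hys, hyQ⟩ := hy
    have h1 : ∀ w, ⟪A (c (ψ y)) - l • A (c y), fderiv ℝ A (c (ψ y)) w⟫ = 0 := by
      have hAd : HasFDerivAt (fun u => A u - l • (j y - q)) (fderiv ℝ A (c (ψ y))) (c (ψ y)) :=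
        ((hAs _ hyO').differentiableAt (by simp)).hasFDerivAt.sub_const _
      have h2 := hAd.norm_sq
      have h3 : IsLocalMin (fun u => ‖A u - l • (j y - q)‖ ^ 2) (c (ψ y)) := by
        have h4 : c.target ∩ c.symm ⁻¹' (interior K) ∈ 𝓝 (c (ψ y)) := by
          refine (c.symm.isOpen_inter_preimage isOpen_interior).mem_nhds ⟨c.map_source hys, ?_⟩
          show c.symm (c (ψ y)) ∈ interior K
          rw [c.left_inv hys]
          exact hyK
        filter_upwards [h4] with u hu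
        have h5 := hψm y (c.symm u) (interior_subset hu.2)
        rw [hAc _ hys]
        exact pow_le_pow_left₀ (norm_nonneg _) h5 2
      have h6 := h3.hasFDerivAt_eq_zero h2
      intro w
      have h7 := congrArg (fun L : E n →L[ℝ] ℝ => L w) h6
      simp only [_root_.smul_apply, ContinuousLinearMap.coe_comp, Function.comp_apply,
        innerSL_apply_apply, _root_.zero_apply] at h7
      rw [hAc y (hOs i hyO)]
      simpa using h7
    have h2 := hPQ (c y) hyP (c (ψ y)) (interior_subset hyQ) h1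
    rw [← h2, c.left_inv hys]
  refine ⟨?_, ?_⟩
  · rw [hψζ.self_of_nhds, hζ0, c.left_inv (hOs i hzi)]
  · refine LD.congr ?_ hψζ
    refine LD.comp_fun (g := c.symm) (f := fun y => ζ (c y)) ?_ ?_
    · rw [hζ0]
      exact LD_chart_symm (i : X) (c z) (c.map_source (hOs i hzi))
    · exact LD.comp_fun (g := ζ) (f := c) hζL (LD_chart' (i : X) x (hOs i hxi))

/-- **Star-shaped sets embed.** -/
theorem emb_of_star (F U : Set X) (hF : IsCompact F) (hU : IsOpen U) (hFU : F ⊆ U) (j : X → E N)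
    (hj : InjOn j U) (hjs : ∀ x ∈ U, ContMDiffAt (𝓡 n) (𝓡 N) ∞ j x)
    (hjd : ∀ x ∈ U, Injective (mfderiv (𝓡 n) (𝓡 N) j x)) (p : X) (hp : p ∈ F)
    (hst : StarConvex ℝ (j p) (j '' F)) : Emb n F := by
  have hjc : ContinuousOn j U := fun x hx => (hjs x hx).continuousAt.continuousWithinAt
  set q := j p with hq
  obtain ⟨l, hl0, hl1, ψ, hψ⟩ := retract F U hF hU hFU j hj hjs hjd q ⟨p, hp⟩
  have hex : ∀ t : ℝ, 0 ≤ t → t ≤ 1 → ∀ x ∈ F, ∃ z ∈ F, j z - q = t • (j x - q) := by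
    intro t ht0 ht1 x hx
    have h1 := hst ⟨x, hx, rfl⟩ (sub_nonneg.2 ht1) ht0 (by ring)
    obtain ⟨z, hz, hzx⟩ := h1
    refine ⟨z, hz, ?_⟩
    rw [hzx]
    module
  -- the scaled sets
  set G : ℕ → Set X := fun k => {z | z ∈ F ∧ ∃ x ∈ F, j z - q = l ^ k • (j x - q)} with hG
  have hGc : ∀ k, IsCompact (G k) := by
    intro k
    have h1 : IsCompact ((fun x : E N => q + l ^ k • (x - q)) '' (j '' F)) :=
      (hF.image_of_continuousOn (hjc.mono hFU)).image (by fun_prop)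
    have h2 : G k = F ∩ j ⁻¹' ((fun x : E N => q + l ^ k • (x - q)) '' (j '' F)) := by
      ext z
      constructor
      · rintro ⟨hz, x, hx, hzx⟩
        refine ⟨hz, j x, ⟨x, hx, rfl⟩, ?_⟩
        show q + l ^ k • (j x - q) = j z
        rw [← hzx]
        abel
      · rintro ⟨hz, _, ⟨x, hx, rfl⟩, hzx⟩
        refine ⟨hz, x, hx, ?_⟩
        have hzx' : q + l ^ k • (j x - q) = j z := hzx
        rw [← hzx']
        abel
    rw [h2]
    obtain ⟨C, hC, hC'⟩ := (continuousOn_iff_isClosed.1 (hjc.mono hFU)) _ h1.isClosed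
    rw [inter_comm, hC', inter_comm]
    exact hF.inter_right hC
  have hstep : ∀ k, Emb n (G (k + 1)) → Emb n (G k) := by
    intro k hE
    obtain ⟨U', k', hU', hGU', hk', hkd'⟩ := hE
    have hz : ∀ x ∈ G k, ∃ z ∈ G (k + 1), j z - q = l • (j x - q) := by
      rintro x ⟨hx, y, hy, hxy⟩
      obtain ⟨z, hz, hzx⟩ := hex l hl0.le hl1.le x hx
      refine ⟨z, ⟨hz, y, hy, ?_⟩, hzx⟩
      rw [hzx, hxy, smul_smul, pow_succ, mul_comm]
    refine emb_of_injOn (hGc k) (fun x => k' (ψ x)) ?_ ?_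
    · intro x hx y hy hxy
      obtain ⟨z, hz1, hz2⟩ := hz x hx
      obtain ⟨w, hw1, hw2⟩ := hz y hy
      have h1 := (hψ x hx.1 z hz1.1 hz2).1
      have h2 := (hψ y hy.1 w hw1.1 hw2).1
      simp only [h1, h2] at hxy
      have h3 : z = w := hk' (hGU' hz1) (hGU' hw1) hxy
      rw [h3, hw2] at hz2
      have h4 := smul_right_injective (E N) hl0.ne' hz2
      exact hj (hFU hx.1) (hFU hy.1) (sub_left_injective h4).symm
    · intro x hx
      obtain ⟨z, hz1, hz2⟩ := hz x hx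
      obtain ⟨h1, h2⟩ := hψ x hx.1 z hz1.1 hz2
      refine LD.comp_fun (g := k') (f := ψ) ?_ h2
      rw [h1]
      exact hkd' z (hGU' hz1)
  -- small scales
  have hsmall : ∃ k, Emb n (G k) := by
    set c := chartAt (E n) p with hc
    have hps : p ∈ c.source := mem_chart_source _ p
    obtain ⟨R, hR0, hR⟩ : ∃ R : ℝ, 0 < R ∧ ∀ x ∈ F, ‖j x - q‖ ≤ R := by
      obtain ⟨R, hR⟩ := (hF.image_of_continuousOn (hjc.mono hFU)).isBounded.subset_closedBall q
      refine ⟨|R| + 1, by positivity, fun x hx => ?_⟩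
      have h1 := hR ⟨x, hx, rfl⟩
      rw [mem_closedBall, dist_eq_norm] at h1
      linarith [le_abs_self R]
    obtain ⟨m, hm, hm'⟩ : ∃ m : ℝ, 0 < m ∧ ∀ u ∈ F \ c.source, m ≤ ‖j u - q‖ := by
      rcases (F \ c.source).eq_empty_or_nonempty with h0 | h0
      · exact ⟨1, one_pos, fun u hu => by rw [h0] at hu; exact hu.elim⟩
      · have hcc : ContinuousOn (fun u => ‖j u - q‖) (F \ c.source) :=
          ((hjc.mono (sdiff_subset.trans hFU)).sub continuousOn_const).norm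
        obtain ⟨u, hu, hum⟩ := (hF.diff c.open_source).exists_isMinOn h0 hcc
        refine ⟨‖j u - q‖, norm_pos_iff.2 (sub_ne_zero.2 fun h => ?_), fun v hv => hum hv⟩
        have h1 := hj (hFU hu.1) (hFU hp) h
        rw [h1] at hu
        exact hu.2 hps
    obtain ⟨k, hk⟩ := exists_pow_lt_of_lt_one (show (0 : ℝ) < m / R by positivity) hl1
    refine ⟨k, c.source, c, c.open_source, ?_, c.injOn, fun x hx => LD_chart' p x hx⟩
    rintro z ⟨hz, x, hx, hzx⟩
    by_contra hcon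
    have h1 := hm' z ⟨hz, hcon⟩
    rw [hzx, norm_smul, Real.norm_of_nonneg (by positivity)] at h1
    have h2 : l ^ k * ‖j x - q‖ ≤ l ^ k * R :=
      mul_le_mul_of_nonneg_left (hR x hx) (by positivity)
    rw [lt_div_iff₀ hR0] at hk
    linarith
  obtain ⟨k, hk⟩ := hsmall
  have hall : Emb n (G 0) := by
    have : ∀ i, Emb n (G (k - i)) := by
      intro i
      induction i with
      | zero => simpa using hk
      | succ i ih =>
        by_cases h : i < k
        · have h1 : k - i = (k - (i + 1)) + 1 := by omega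
          rw [h1] at ih
          exact hstep _ ih
        · have h1 : k - (i + 1) = k - i := by omega
          rw [h1]
          exact ih
    simpa using this k
  obtain ⟨U', k', hU', hGU', hk', hkd'⟩ := hall
  refine ⟨U', k', hU', fun x hx => hGU' ⟨hx, x, hx, ?_⟩, hk', hkd'⟩
  rw [pow_zero, one_smul]

end key

end Pool.Agent.H827.SF
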