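import Pool.Agent.H827.SF.Class
import Pool.Graph.R_pool_sql_team_seeded_64922ed1.X175.SH.UFinal

/-!
# Proper smooth maps onto `ℝ^n` with universally embeddable fibres
-/

set_option autoImplicit false

open Set Filter Topology Metric Function MeasureTheory
open scoped Manifold ContDiff

noncomputable section

namespace Pool.Agent.H827.SF

open Pool.Agent.Y522 Pool.Agent.X175.SH

/-- The theorem to be proved by induction. -/
def SFT (n : ℕ) : Prop :=
  ∀ (X : Type) [TopologicalSpace X] [T2Space X] [ChartedSpace (E n) X] [IsManifold (𝓡 n) ∞ X]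
    (H : X → E n), IsProperMap H → Surjective H → ContMDiff (𝓡 n) (𝓡 n) ∞ H →
    (∀ y, UEmb n (H ⁻¹' {y})) → Nonempty (Diffeomorph (𝓡 n) (𝓡 n) X (E n) ∞)

/-- locally null images are null -/
theorem null_of_locally' {k : ℕ} {Y : Type*} [TopologicalSpace Y] [SecondCountableTopology Y]
    {f : Y → E k} {s : Set Y} (h : ∀ x ∈ s, ∃ u ∈ 𝓝 x, volume (f '' (s ∩ u)) = 0) :
    volume (f '' s) = 0 := by
  choose! u hu hu0 using h
  obtain ⟨t, hts, htc, hst⟩ := TopologicalSpace.countable_cover_nhdsWithin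
    (f := fun x => s ∩ u x) (s := s)
    (fun x hx => inter_mem_nhdsWithin s (hu x hx))
  refine measure_mono_null (t := ⋃ x ∈ t, f '' (s ∩ u x)) ?_
    ((measure_biUnion_null_iff htc).2 fun x hx => hu0 x (hts hx))
  rintro _ ⟨x, hx, rfl⟩
  obtain ⟨y, hy, hxy⟩ := mem_iUnion₂.1 (hst hx)
  exact mem_iUnion₂.2 ⟨y, hy, x, hxy, rfl⟩

/-- a map with invertible differential is a local diffeomorphism -/
theorem LD_of_det {n : ℕ} {f : E n → E n} {z : E n} (hf : ∀ᶠ y in 𝓝 z, ContDiffAt ℝ ∞ f y)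
    (hd : (fderiv ℝ f z).det ≠ 0) : LD n f z := by
  have h1 := hf.self_of_nhds
  refine LD_of_contDiffAt hf ((fderiv ℝ f z).toContinuousLinearEquivOfDetNeZero hd) ?_
  have h2 : ((fderiv ℝ f z).toContinuousLinearEquivOfDetNeZero hd : E n →L[ℝ] E n) =
      fderiv ℝ f z := by
    ext v
    rfl
  rw [h2]
  exact (h1.differentiableAt (by simp)).hasFDerivAt

/-- Sard's theorem for maps of manifolds of the same dimension -/
theorem sardEq {n : ℕ} {X : Type} [TopologicalSpace X] [SecondCountableTopology X]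
    [ChartedSpace (E n) X] [IsManifold (𝓡 n) ∞ X] (H : X → E n) (U : Set X) (hU : IsOpen U)
    (hs : ∀ x ∈ U, ContMDiffAt (𝓡 n) (𝓡 n) ∞ H x) :
    volume (H '' {x | x ∈ U ∧ ¬ LD n H x}) = 0 := by
  refine null_of_locally' fun x _ => ⟨(chartAt (E n) x).source,
    (chartAt (E n) x).open_source.mem_nhds (mem_chart_source _ x), ?_⟩
  set c := chartAt (E n) x with hc
  set f : E n → E n := fun z => H (c.symm z) with hf
  set O : Set (E n) := c.target ∩ c.symm ⁻¹' U with hO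
  have hOo : IsOpen O := c.symm.isOpen_inter_preimage hU
  have hfs : ∀ z ∈ O, ContDiffAt ℝ ∞ f z := by
    intro z hz
    exact contMDiffAt_iff_contDiffAt.1 ((hs _ hz.2).comp z (LD_chart_symm x z hz.1).contMDiffAt)
  have h1 : volume (f '' {z | z ∈ O ∧ (fderiv ℝ f z).det = 0}) = 0 := by
    refine addHaar_image_eq_zero_of_det_fderivWithin_eq_zero volume
      (f' := fun z => fderiv ℝ f z) ?_ (fun z hz => hz.2)
    intro z hz
    exact ((hfs z hz.1).differentiableAt (by simp)).hasFDerivAt.hasFDerivWithinAt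
  refine measure_mono_null ?_ h1
  rintro _ ⟨y, ⟨⟨hyU, hyL⟩, hys⟩, rfl⟩
  have hyO : c y ∈ O := ⟨c.map_source hys, by
    show c.symm (c y) ∈ U
    rw [c.left_inv hys]
    exact hyU⟩
  refine ⟨c y, ⟨hyO, ?_⟩, by simp only [hf, c.left_inv hys]⟩
  by_contra hd
  apply hyL
  have h2 : LD n f (c y) := LD_of_det (by
    filter_upwards [hOo.mem_nhds hyO] with z hz
    exact hfs z hz) hd
  refine (LD.comp_fun (g := f) (f := c) h2 (LD_chart' x y hys)).congr ?_
  filter_upwards [c.open_source.mem_nhds hys] with z hz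
  simp only [hf, c.left_inv hz]

/-- fibres over regular values are single points -/
theorem fibre_singleton {n : ℕ} {X : Type} [TopologicalSpace X] [ChartedSpace (E n) X]
    [IsManifold (𝓡 n) ∞ X] (H : X → E n) (y : E n) (hu : UEmb n (H ⁻¹' {y}))
    (hL : ∀ x, H x = y → LD n H x) : (H ⁻¹' {y}).Subsingleton := by
  refine hu.subsingleton ?_
  rw [discreteTopology_iff_isOpen_singleton]
  rintro ⟨x, hx⟩
  obtain ⟨u, hu, hui⟩ := (hL x hx).eventually_injOn
  obtain ⟨v, hvu, hvo, hxv⟩ := _root_.mem_nhds_iff.1 hu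
  have h1 : ({⟨x, hx⟩} : Set (H ⁻¹' {y})) = Subtype.val ⁻¹' v := by
    ext ⟨z, hz⟩
    constructor
    · intro h
      have h2 : z = x := congrArg Subtype.val h
      show z ∈ v
      rw [h2]
      exact hxv
    · intro h
      have hz' : H z = y := hz
      have hx' : H x = y := hx
      have h2 : z = x := hui (hvu h) (hvu hxv) (by rw [hz', hx'])
      exact Subtype.ext h2
  rw [h1]
  exact hvo.preimage continuous_subtype_val

/-- Level sets of regular values are diffeomorphic to `ℝ^m`. -/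
theorem level_wallS {m : ℕ} (hS : SFT m) {X : Type} [TopologicalSpace X] [T2Space X]
    [ChartedSpace (E (m + 1)) X] [IsManifold (𝓡 (m + 1)) ∞ X] (H : X → E (m + 1))
    (hH : IsProperMap H) (hsurj : Surjective H) (B : Set (E (m + 1)))
    (hfibS : ∀ y, y ∉ B → UEmb (m + 1) (H ⁻¹' {y}))
    (hsm : ∀ x, H x ∉ B → ContMDiffAt (𝓡 (m + 1)) (𝓡 (m + 1)) ∞ H x) (φ : X → ℝ)
    (hφ : ContMDiff (𝓡 (m + 1)) 𝓘(ℝ, ℝ) ∞ φ) (W : Set X) (hW : IsOpen W)
    {T : Set (E (m + 1))} {G : E m → E (m + 1)} {G' : E (m + 1) → E m} (hP : Par m T G G')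
    (hTB : ∀ z ∈ T, z ∉ B)
    (hT : ∀ x, H x ∈ T ↔ (φ x = 0 ∧ x ∈ W))
    (hd : ∀ x, H x ∈ T → mfderiv (𝓡 (m + 1)) 𝓘(ℝ, ℝ) φ x ≠ 0) :
    ∃ f : E m → X, Injective f ∧ ContMDiff (𝓡 m) (𝓡 (m + 1)) ∞ f ∧
      (∀ x, Injective (mfderiv (𝓡 m) (𝓡 (m + 1)) f x)) ∧ ∀ x, x ∈ range f ↔ H x ∈ T := by
  have hflat : LocFlat m {x : X | H x ∈ T} := by
    intro x hx
    have hx' : H x ∈ T := hx
    obtain ⟨e, heL, -, hee⟩ := Pool.Agent.Y641.SH.stAdapt m X φ x
      (Eventually.of_forall fun y => hφ.contMDiffAt) (hd x hx')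
    refine ⟨e, heL, ?_⟩
    filter_upwards [hee, hW.mem_nhds ((hT x).1 hx').2] with y hy hyW
    have h1 : H y ∈ T ↔ (e y) 0 = 0 := by
      rw [hT, hy, ((hT x).1 hx').1, sub_zero]
      exact ⟨fun h => h.1, fun h => ⟨h, hyW⟩⟩
    exact h1
  obtain ⟨hch, hman, hval, hvald⟩ := Pool.Agent.Y641.SH.stLevel m X {x : X | H x ∈ T} hflat
  -- the map of the level set
  set h : {x : X | H x ∈ T} → E m := fun s => G' (H s) with hh
  have hhc : Continuous h := by
    refine continuous_iff_continuousAt.2 fun s => ?_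
    exact ContinuousAt.comp (g := G') (hP.inv_smooth _ s.2).continuousAt
      (hH.continuous.comp continuous_subtype_val).continuousAt
  have hGG : ∀ (s : {x : X | H x ∈ T}) (y : E m), h s = y ↔ H s = G y := by
    intro s y
    constructor
    · intro hs
      rw [← hs]
      exact (hP.right _ s.2).symm
    · intro hs
      simp only [hh, hs, hP.left]
  have hhp : IsProperMap h := by
    rw [isProperMap_iff_isCompact_preimage]
    refine ⟨hhc, fun K hK => ?_⟩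
    rw [Subtype.isCompact_iff]
    have h3 : (Subtype.val '' (h ⁻¹' K) : Set X) = H ⁻¹' (G '' K) := by
      ext x
      constructor
      · rintro ⟨s, hs, rfl⟩
        exact ⟨h s, hs, ((hGG s (h s)).1 rfl).symm⟩
      · rintro ⟨y, hy, hyx⟩
        have hxT : H x ∈ T := by
          rw [← hyx]
          exact hP.mem y
        refine ⟨⟨x, hxT⟩, ?_, rfl⟩
        show h ⟨x, hxT⟩ ∈ K
        rw [(hGG ⟨x, hxT⟩ y).2 hyx.symm]
        exact hy
    rw [h3]
    exact hH.isCompact_preimage (hK.image hP.smooth.continuous)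
  have hhs : Surjective h := by
    intro y
    obtain ⟨x, hx⟩ := hsurj (G y)
    have hxT : H x ∈ T := by
      rw [hx]
      exact hP.mem y
    exact ⟨⟨x, hxT⟩, (hGG ⟨x, hxT⟩ y).2 hx⟩
  have hhm : ContMDiff (𝓡 m) (𝓡 m) ∞ h := by
    intro s
    have h1 : ContMDiffAt (𝓡 (m + 1)) (𝓡 m) ∞ G' (H (s : X)) :=
      contMDiffAt_iff_contDiffAt.2 (hP.inv_smooth _ s.2)
    have h2 : ContMDiffAt (𝓡 m) (𝓡 (m + 1)) ∞ (fun s : {x : X | H x ∈ T} => H (s : X)) s :=
      (hsm _ (hTB _ s.2)).comp s hval.contMDiffAt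
    exact ContMDiffAt.comp (g := G') (f := fun s : {x : X | H x ∈ T} => H (s : X)) s h1 h2
  have hhf : ∀ y, UEmb m (h ⁻¹' {y}) := by
    intro y
    have h1 : h ⁻¹' {y} = (Subtype.val : {x : X | H x ∈ T} → X) ⁻¹' (H ⁻¹' {G y}) := by
      ext s
      exact hGG s y
    rw [h1]
    refine (hfibS (G y) (hTB _ (hP.mem y))).comap Subtype.val IsEmbedding.subtypeVal hval hvald ?_
    intro x hx
    have hx' : H x = G y := hx
    rw [Subtype.range_coe]
    show H x ∈ T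
    rw [hx']
    exact hP.mem y
  obtain ⟨D⟩ := hS {x : X | H x ∈ T} h hhp hhs hhm hhf
  refine ⟨fun y => (D.symm y : X), ?_, ?_, ?_, ?_⟩
  · intro y z hyz
    exact D.symm.injective (Subtype.ext hyz)
  · exact hval.comp D.symm.contMDiff
  · intro y
    have h1 : mfderiv (𝓡 m) (𝓡 (m + 1)) (fun y => (D.symm y : X)) y =
        (mfderiv (𝓡 m) (𝓡 (m + 1)) (Subtype.val : {x : X | H x ∈ T} → X) (D.symm y)).comp
          (mfderiv (𝓡 m) (𝓡 m) D.symm y) :=
      mfderiv_comp y (hval.mdifferentiableAt (by simp))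
        (D.symm.contMDiff.mdifferentiableAt (by simp))
    rw [h1]
    refine (hvald (D.symm y)).comp ?_
    have h2 := D.symm.mfderivToContinuousLinearEquiv_coe (by simp) (x := y)
    rw [← h2]
    exact (D.symm.mfderivToContinuousLinearEquiv (by simp) y).injective
  · intro x
    constructor
    · rintro ⟨y, rfl⟩
      exact (D.symm y).2
    · intro hx
      exact ⟨D ⟨x, hx⟩, by simp⟩

/-- the sphere of radius `r` without a point `p` -/
theorem stereo_param_at {m : ℕ} (r : ℝ) (hr : 0 < r) (p : E (m + 1)) (hp : ‖p‖ = r) :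
    ∃ (G : E m → E (m + 1)) (G' : E (m + 1) → E m),
      Par m {z | ‖z‖ = r ∧ z ≠ p} G G' := by
  obtain ⟨G, G', hP⟩ := stereo_param (m := m) r hr
  have hnr : ‖(r • e0 : E (m + 1))‖ = r := by
    rw [norm_smul, norm_e0, mul_one, Real.norm_of_nonneg hr.le]
  obtain ⟨A, hA⟩ : ∃ A : E (m + 1) ≃ₗᵢ[ℝ] E (m + 1), A p = r • e0 :=
    ⟨_, Submodule.reflection_sub (v := p) (w := r • e0) (by rw [hp, hnr])⟩
  have hAp : A.symm (r • e0) = p := by rw [← hA, A.symm_apply_apply]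
  refine ⟨fun y => A.symm (G y), fun z => G' (A z), ?_, ?_, ?_, ?_, ?_⟩
  · exact A.symm.toContinuousLinearEquiv.contDiff.comp hP.smooth
  · rintro z ⟨hz1, hz2⟩
    have h1 : A z ∈ {z | ‖z‖ = r ∧ z ≠ r • e0} := by
      refine ⟨by rw [A.norm_map]; exact hz1, fun h => hz2 ?_⟩
      rw [← hAp, ← h, A.symm_apply_apply]
    exact ContDiffAt.comp (g := G') z (hP.inv_smooth _ h1)
      A.toContinuousLinearEquiv.contDiff.contDiffAt
  · intro y
    simp only [A.apply_symm_apply, hP.left]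
  · intro y
    obtain ⟨h1, h2⟩ := hP.mem y
    refine ⟨by rw [A.symm.norm_map]; exact h1, fun h => h2 ?_⟩
    rw [← hA, ← h, A.apply_symm_apply]
  · rintro z ⟨hz1, hz2⟩
    have h1 : A z ∈ {z | ‖z‖ = r ∧ z ≠ r • e0} := by
      refine ⟨by rw [A.norm_map]; exact hz1, fun h => hz2 ?_⟩
      rw [← hAp, ← h, A.symm_apply_apply]
    simp only [hP.right _ h1, A.symm_apply_apply]

section main

variable {m : ℕ} {X : Type} [TopologicalSpace X] [T2Space X] [ChartedSpace (E (m + 1)) X]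
    [IsManifold (𝓡 (m + 1)) ∞ X]

/-- levels which avoid the bad set and are regular are good -/
theorem goodS [SigmaCompactSpace X] (hS : SFT m) (H : X → E (m + 1)) (hH : IsProperMap H)
    (hsurj : Surjective H) (B : Set (E (m + 1))) (hB : IsClosed B)
    (hfibS : ∀ y, y ∉ B → UEmb (m + 1) (H ⁻¹' {y}))
    (hsm : ∀ x, H x ∉ B → ContMDiffAt (𝓡 (m + 1)) (𝓡 (m + 1)) ∞ H x)
    (i : Fin (m + 1)) (c : ℝ) (hcB : ∀ y ∈ B, y i ≠ c)
    (hcr : ∀ x, H x i = c → mfderiv (𝓡 (m + 1)) 𝓘(ℝ, ℝ) (fun x => H x i) x ≠ 0) :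
    GoodU H i c := by
  intro a b hab ha hb
  -- a ball containing the box
  obtain ⟨R, hR0, hR⟩ : ∃ R : ℝ, 0 < R ∧ obox a b ⊆ closedBall (0 : E (m + 1)) R := by
    refine ⟨(m + 1 : ℝ) * (Finset.univ.sup' Finset.univ_nonempty fun j => |a j| + |b j|) + 1,
      ?_, ?_⟩
    · have h1 : 0 ≤ Finset.univ.sup' Finset.univ_nonempty fun j : Fin (m + 1) => |a j| + |b j| :=
        le_trans (by positivity) (Finset.le_sup' (fun j => |a j| + |b j|) (Finset.mem_univ 0))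
      positivity
    · intro z hz
      rw [mem_closedBall_zero_iff]
      have h1 : 0 ≤ Finset.univ.sup' Finset.univ_nonempty fun j : Fin (m + 1) => |a j| + |b j| :=
        le_trans (by positivity) (Finset.le_sup' (fun j => |a j| + |b j|) (Finset.mem_univ 0))
      have h2 := norm_le_of_coord z _ h1 fun j => by
        refine le_trans ?_ (Finset.le_sup' (fun j => |a j| + |b j|) (Finset.mem_univ j))
        have h3 := hz j
        have h4 := neg_abs_le (a j)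
        have h5 := le_abs_self (b j)
        have h6 := abs_nonneg (a j)
        have h7 := abs_nonneg (b j)
        rw [abs_le]
        exact ⟨by linarith, by linarith⟩
      linarith
  -- distance of the level from the bad set
  obtain ⟨δ, hδ, hδB⟩ : ∃ δ : ℝ, 0 < δ ∧ ∀ y ∈ B, ‖y‖ ≤ R + 1 → δ ≤ |y i - c| := by
    have hK : IsCompact (B ∩ closedBall 0 (R + 1)) := (isCompact_closedBall _ _).inter_left hB
    rcases (B ∩ closedBall (0 : E (m + 1)) (R + 1)).eq_empty_or_nonempty with h0 | h0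
    · refine ⟨1, one_pos, fun y hy hyR => ?_⟩
      exfalso
      have : y ∈ B ∩ closedBall (0 : E (m + 1)) (R + 1) :=
        ⟨hy, by rwa [mem_closedBall_zero_iff]⟩
      rw [h0] at this
      exact this
    · have hc : ContinuousOn (fun y : E (m + 1) => |y i - c|) (B ∩ closedBall 0 (R + 1)) := by
        have : Continuous fun y : E (m + 1) => |y i - c| := by fun_prop
        exact this.continuousOn
      obtain ⟨y₀, hy₀, hmin⟩ := hK.exists_isMinOn h0 hc
      refine ⟨|y₀ i - c|, abs_pos.2 (sub_ne_zero.2 (hcB y₀ hy₀.1)), fun y hy hyR => ?_⟩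
      exact hmin ⟨hy, by rwa [mem_closedBall_zero_iff]⟩
  obtain ⟨τ, hτ, hτ1, hτ2, hτ3, hτ4⟩ := exists_tau δ hδ
  -- the cut-off function
  obtain ⟨β, hβ0, hβ1, hβ⟩ := exists_contMDiffMap_zero_one_of_isClosed (n := ⊤) (𝓡 (m + 1))
    (s := H ⁻¹' {y | R + 1 / 2 ≤ ‖y‖}) (t := H ⁻¹' closedBall 0 R)
    ((isClosed_le continuous_const continuous_norm).preimage hH.continuous)
    (isClosed_closedBall.preimage hH.continuous)
    (by
      rw [Set.disjoint_left]
      intro x hx hx'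
      have h1 : R + 1 / 2 ≤ ‖H x‖ := hx
      have h2 : ‖H x‖ ≤ R := by simpa using hx'
      linarith)
  have hu : ContDiff ℝ ∞ (fun z : E (m + 1) => z i - c) := by fun_prop
  set φ : X → ℝ := fun x => β x * τ (H x i - c) with hφdef
  have hφ : ContMDiff (𝓡 (m + 1)) 𝓘(ℝ, ℝ) ∞ φ := by
    intro x
    by_cases hx : ‖H x‖ < R + 1
    · have h1 := tau_smooth hH.continuous hsm hu hτ hτ4 x (fun hxB => by
        have := hδB _ hxB hx.le
        linarith)
      exact β.contMDiff.contMDiffAt.mul h1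
    · have h1 : ∀ᶠ y in 𝓝 x, R + 1 / 2 < ‖H y‖ :=
        (hH.continuous.norm.continuousAt (x := x)).eventually (lt_mem_nhds (by
          push Not at hx
          linarith))
      refine (contMDiffAt_const (c := (0 : ℝ))).congr_of_eventuallyEq ?_
      filter_upwards [h1] with y hy
      have h2 : β y = 0 := hβ0 (le_of_lt hy : R + 1 / 2 ≤ ‖H y‖)
      simp only [hφdef, h2, zero_mul]
  have hφbox : ∀ x, H x ∈ obox a b → φ x = τ (H x i - c) := by
    intro x hx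
    have h2 : β x = 1 := hβ1 (hR hx)
    simp only [hφdef, h2, one_mul]
  have hφloc : ∀ x, H x ∈ obox a b → H x i = c → ∀ᶠ y in 𝓝 x, φ y = H y i - c := by
    intro x hx hxc
    have hci : Continuous fun y => H y i - c := hu.continuous.comp hH.continuous
    have h1 : ∀ᶠ y in 𝓝 x, |H y i - c| < δ / 4 := by
      refine hci.abs.continuousAt.eventually (gt_mem_nhds ?_)
      show |H x i - c| < δ / 4
      rw [hxc, sub_self, abs_zero]
      positivity
    filter_upwards [h1, hH.continuous.continuousAt.eventually_mem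
      ((isOpen_obox a b).mem_nhds hx)] with y hy hyb
    rw [hφbox y hyb, hτ1 _ hy.le]
  have hφd : ∀ x, H x ∈ obox a b → H x i = c →
      mfderiv (𝓡 (m + 1)) 𝓘(ℝ, ℝ) φ x ≠ 0 := by
    intro x hx hxc
    have hxB : H x ∉ B := fun h => hcB _ h hxc
    have h1 : mfderiv (𝓡 (m + 1)) 𝓘(ℝ, ℝ) φ x =
        mfderiv (𝓡 (m + 1)) 𝓘(ℝ, ℝ) (fun y => H y i - c) x :=
      Filter.EventuallyEq.mfderiv_eq (hφloc x hx hxc)
    have hpr : ContDiff ℝ ∞ (fun z : E (m + 1) => z i) := by fun_prop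
    have hHi : ContMDiffAt (𝓡 (m + 1)) 𝓘(ℝ, ℝ) ∞ (fun x => H x i) x :=
      (contMDiff_iff_contDiff.2 hpr).contMDiffAt.comp x (hsm x hxB)
    have h3 : HasMFDerivAt (𝓡 (m + 1)) 𝓘(ℝ, ℝ) (fun x => H x i - c) x
        (mfderiv (𝓡 (m + 1)) 𝓘(ℝ, ℝ) (fun x => H x i) x) := by
      have h4 : HasMFDerivAt 𝓘(ℝ, ℝ) 𝓘(ℝ, ℝ) (fun t : ℝ => t - c) (H x i)
          (ContinuousLinearMap.id ℝ ℝ) :=
        (((hasFDerivAt_id (H x i)).sub_const c)).hasMFDerivAt
      exact h4.comp x ((hHi.mdifferentiableAt (by simp)).hasMFDerivAt)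
    rw [h1, h3.mfderiv]
    exact hcr x hxc
  obtain ⟨G, G', hP⟩ := wall_param i c a b hab ha hb
  obtain ⟨f, hf1, hf2, hf3, hf4⟩ := level_wallS hS H hH hsurj B hfibS hsm φ hφ
    (H ⁻¹' obox a b) ((isOpen_obox a b).preimage hH.continuous) hP
    (fun z hz hzB => hcB z hzB hz.1)
    (fun x => by
      constructor
      · rintro ⟨h1, h2⟩
        refine ⟨?_, h2⟩
        rw [hφbox x h2, h1, sub_self, hτ1 0 (by rw [abs_zero]; positivity)]
      · rintro ⟨h1, h2⟩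
        rw [hφbox x h2] at h1
        have h3 := (hτ2 _).1 h1.le
        have h4 := (hτ3 _).1 h1.ge
        exact ⟨by linarith, h2⟩)
    (fun x hx => hφd x hx.2 hx.1)
  refine ⟨φ, f, hφ, ?_, ?_, hf1, hf2, hf3, ?_, hf4⟩
  · intro x hx
    rw [hφbox x hx, hτ2, sub_nonpos]
  · intro x hx
    rw [hφbox x hx, hτ3, sub_nonneg]
  · intro y
    have h1 := (hf4 _).1 (mem_range_self y)
    exact hφd _ h1.2 h1.1

/-- **Theorem U for universally embeddable fibres.** -/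
theorem mainS [SigmaCompactSpace X] (hS : SFT m) (H : X → E (m + 1)) (hH : IsProperMap H)
    (hsurj : Surjective H) (B : Set (E (m + 1))) (hB : IsClosed B)
    (hfibS : ∀ y, y ∉ B → UEmb (m + 1) (H ⁻¹' {y}))
    (hsm : ∀ x, H x ∉ B → ContMDiffAt (𝓡 (m + 1)) (𝓡 (m + 1)) ∞ H x)
    (hfib : ∀ y ∈ B, Emb (m + 1) (H ⁻¹' {y}))
    (hgood : ∀ i, Dense {c : ℝ | (∀ y ∈ B, y i ≠ c) ∧
      ∀ x, H x i = c → mfderiv (𝓡 (m + 1)) 𝓘(ℝ, ℝ) (fun x => H x i) x ≠ 0})
    (hsph : ∀ R : ℝ, ∃ (r : ℝ) (s₀ : X), R < r ∧ (∀ y ∈ B, ‖y‖ ≠ r) ∧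
      (∀ x, ‖H x‖ = r → mfderiv (𝓡 (m + 1)) 𝓘(ℝ, ℝ) (fun x => ‖H x‖ ^ 2) x ≠ 0) ∧
      ‖H s₀‖ = r ∧ ∀ x, H x = H s₀ → x = s₀) :
    (∀ K : Set X, IsCompact K → Emb (m + 1) K) ∧
      Nonempty (Diffeomorph (𝓡 (m + 1)) (𝓡 (m + 1)) X (E (m + 1)) ∞) := by
  have hfib' : ∀ y, Emb (m + 1) (H ⁻¹' {y}) := by
    intro y
    by_cases hy : y ∈ B
    · exact hfib y hy
    · exact (hfibS y hy).emb
  have hEmb : ∀ K : Set X, IsCompact K → Emb (m + 1) K := by
    intro K hK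
    refine emb_allU H hH hfib' (fun i => ?_) K hK
    exact (hgood i).mono fun c hc => goodS hS H hH hsurj B hB hfibS hsm i c hc.1 hc.2
  refine ⟨hEmb, Pool.Agent.Y496.SH.monotone (Pool.Agent.Y784.SH.ext Pool.Agent.Y248.SH.germ)
    (m + 1) X ?_⟩
  intro K hK
  have hpr : ContDiff ℝ ∞ (fun z : E (m + 1) => ‖z‖ ^ 2) := contDiff_norm_sq ℝ
  obtain ⟨M, hM0, hM⟩ : ∃ M : ℝ, 0 < M ∧ ∀ x ∈ K, ‖H x‖ ≤ M := by
    obtain ⟨M, hM⟩ := (hK.image hH.continuous).isBounded.subset_closedBall (0 : E (m + 1))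
    refine ⟨|M| + 1, by positivity, fun x hx => ?_⟩
    have h1 := hM ⟨x, hx, rfl⟩
    rw [mem_closedBall_zero_iff] at h1
    have h2 := le_abs_self M
    linarith
  obtain ⟨r, s₀, hrM, hrB, hrd, hs₀r, hs₀i⟩ := hsph M
  have hr0 : 0 < r := hM0.trans hrM
  -- distance of the sphere from the bad set
  obtain ⟨δ, hδ, hδB⟩ : ∃ δ : ℝ, 0 < δ ∧ ∀ y ∈ B, δ ≤ |‖y‖ ^ 2 - r ^ 2| := by
    have hK : IsCompact (B ∩ closedBall 0 (r + 1)) := (isCompact_closedBall _ _).inter_left hB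
    have hfar : ∀ y ∈ B, r + 1 < ‖y‖ → 1 ≤ |‖y‖ ^ 2 - r ^ 2| := by
      intro y _ hy
      rw [abs_of_pos (by nlinarith)]
      nlinarith
    rcases (B ∩ closedBall (0 : E (m + 1)) (r + 1)).eq_empty_or_nonempty with h0 | h0
    · refine ⟨1, one_pos, fun y hy => hfar y hy ?_⟩
      by_contra hcon
      have : y ∈ B ∩ closedBall (0 : E (m + 1)) (r + 1) :=
        ⟨hy, by rw [mem_closedBall_zero_iff]; exact not_lt.1 hcon⟩
      rw [h0] at this
      exact this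
    · have hc : ContinuousOn (fun y : E (m + 1) => |‖y‖ ^ 2 - r ^ 2|)
          (B ∩ closedBall 0 (r + 1)) := by
        have : Continuous fun y : E (m + 1) => |‖y‖ ^ 2 - r ^ 2| := by fun_prop
        exact this.continuousOn
      obtain ⟨y₀, hy₀, hmin⟩ := hK.exists_isMinOn h0 hc
      have hne : ‖y₀‖ ^ 2 - r ^ 2 ≠ 0 := by
        intro h
        apply hrB y₀ hy₀.1
        rw [sub_eq_zero, sq_eq_sq₀ (norm_nonneg _) hr0.le] at h
        exact h
      refine ⟨min 1 |‖y₀‖ ^ 2 - r ^ 2|, lt_min one_pos (abs_pos.2 hne), fun y hy => ?_⟩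
      by_cases hyR : ‖y‖ ≤ r + 1
      · exact (min_le_right _ _).trans (hmin ⟨hy, by rwa [mem_closedBall_zero_iff]⟩)
      · exact (min_le_left _ _).trans (hfar y hy (not_le.1 hyR))
  obtain ⟨τ, hτ, hτ1, hτ2, hτ3, hτ4⟩ := exists_tau δ hδ
  set φ : X → ℝ := fun x => τ (‖H x‖ ^ 2 - r ^ 2) with hφdef
  have hu : ContDiff ℝ ∞ (fun z : E (m + 1) => ‖z‖ ^ 2 - r ^ 2) := hpr.sub contDiff_const
  have hφ : ContMDiff (𝓡 (m + 1)) 𝓘(ℝ, ℝ) ∞ φ := fun x =>
    tau_smooth hH.continuous hsm hu hτ hτ4 x (fun hxB => by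
      have := hδB _ hxB
      linarith)
  have hφr : ∀ x, φ x = 0 ↔ ‖H x‖ = r := by
    intro x
    constructor
    · intro h
      have h2 : ‖H x‖ ^ 2 - r ^ 2 = 0 := le_antisymm ((hτ2 _).1 h.le) ((hτ3 _).1 h.ge)
      exact (sq_eq_sq₀ (norm_nonneg _) hr0.le).1 (sub_eq_zero.1 h2)
    · intro h
      simp only [hφdef, h, sub_self]
      exact hτ1 0 (by rw [abs_zero]; positivity)
  have hφle : ∀ x, φ x ≤ 0 ↔ ‖H x‖ ≤ r := by
    intro x
    have h1 : φ x ≤ 0 ↔ ‖H x‖ ^ 2 - r ^ 2 ≤ 0 := hτ2 _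
    rw [h1, sub_nonpos, sq_le_sq₀ (norm_nonneg _) hr0.le]
  have hφd : ∀ x, ‖H x‖ = r → mfderiv (𝓡 (m + 1)) 𝓘(ℝ, ℝ) φ x ≠ 0 := by
    intro x hx
    have hxB : H x ∉ B := fun h => hrB _ h hx
    have hci : Continuous fun y => ‖H y‖ ^ 2 - r ^ 2 := hu.continuous.comp hH.continuous
    have h0 : ∀ᶠ y in 𝓝 x, |‖H y‖ ^ 2 - r ^ 2| < δ / 4 := by
      refine hci.abs.continuousAt.eventually (gt_mem_nhds ?_)
      show |‖H x‖ ^ 2 - r ^ 2| < δ / 4
      rw [hx, sub_self, abs_zero]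
      positivity
    have h1 : mfderiv (𝓡 (m + 1)) 𝓘(ℝ, ℝ) φ x =
        mfderiv (𝓡 (m + 1)) 𝓘(ℝ, ℝ) (fun y => ‖H y‖ ^ 2 - r ^ 2) x := by
      refine Filter.EventuallyEq.mfderiv_eq ?_
      filter_upwards [h0] with y hy
      exact hτ1 _ hy.le
    have hHi : ContMDiffAt (𝓡 (m + 1)) 𝓘(ℝ, ℝ) ∞ (fun x => ‖H x‖ ^ 2) x :=
      (contMDiff_iff_contDiff.2 hpr).contMDiffAt.comp x (hsm x hxB)
    have h3 : HasMFDerivAt (𝓡 (m + 1)) 𝓘(ℝ, ℝ) (fun x => ‖H x‖ ^ 2 - r ^ 2) x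
        (mfderiv (𝓡 (m + 1)) 𝓘(ℝ, ℝ) (fun x => ‖H x‖ ^ 2) x) := by
      have h4 : HasMFDerivAt 𝓘(ℝ, ℝ) 𝓘(ℝ, ℝ) (fun t : ℝ => t - r ^ 2) (‖H x‖ ^ 2)
          (ContinuousLinearMap.id ℝ ℝ) :=
        (((hasFDerivAt_id (‖H x‖ ^ 2)).sub_const (r ^ 2))).hasMFDerivAt
      exact h4.comp x ((hHi.mdifferentiableAt (by simp)).hasMFDerivAt)
    rw [h1, h3.mfderiv]
    exact hrd x hx
  obtain ⟨G, G', hP⟩ := stereo_param_at (m := m) r hr0 (H s₀) hs₀r
  have hne : ∀ x, H x ≠ H s₀ ↔ x ≠ s₀ := fun x =>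
    ⟨fun h h' => h (by rw [h']), fun h h' => h (hs₀i x h')⟩
  obtain ⟨f, hf1, hf2, hf3, hf4⟩ := level_wallS hS H hH hsurj B hfibS hsm φ hφ
    {x | x ≠ s₀} isOpen_ne hP
    (fun z hz hzB => hrB z hzB hz.1)
    (fun x => by
      constructor
      · rintro ⟨h2, h3⟩
        exact ⟨(hφr x).2 h2, (hne x).1 h3⟩
      · rintro ⟨h2, h3⟩
        exact ⟨(hφr x).1 h2, (hne x).2 h3⟩)
    (fun x hx => hφd x hx.1)
  have hfr : ∀ y, ‖H (f y)‖ = r ∧ H (f y) ≠ H s₀ := fun y => (hf4 _).1 (mem_range_self y)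
  have hA : {x : X | φ x ≤ 0} = H ⁻¹' closedBall 0 r := by
    ext x
    rw [mem_preimage, mem_closedBall_zero_iff]
    exact hφle x
  have hAc : IsCompact {x : X | φ x ≤ 0} := by
    rw [hA]
    exact hH.isCompact_preimage (isCompact_closedBall _ _)
  refine mazur φ s₀ f hφ hAc (hEmb _ hAc) ?_ hf1 hf2 hf3
    (fun y => (hφr _).2 (hfr y).1) ?_ (fun y => hφd _ (hfr y).1) ?_ K hK ?_
  · rw [hφr]
    exact hs₀r
  · intro y h
    apply (hfr y).2
    rw [h]
  · intro x hx hxs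
    exact (hf4 x).2 ⟨(hφr x).1 hx, (hne x).2 hxs⟩
  · intro x hx
    have h1 := hM x hx
    rw [← not_le]
    intro h2
    have h3 := (hτ3 _).1 h2
    have h4 : ‖H x‖ ^ 2 ≤ M ^ 2 := pow_le_pow_left₀ (norm_nonneg _) h1 2
    nlinarith

end main

end Pool.Agent.H827.SF
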