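import Pool.Agent.H827.SF.Step

/-!
# Proper smooth maps onto `ℝ^n` with universally embeddable fibres: the theorem
-/

set_option autoImplicit false

open Set Filter Topology Metric Function MeasureTheory
open scoped Manifold ContDiff

noncomputable section

namespace Pool.Agent.H827.SF

open Pool.Agent.Y522 Pool.Agent.X175.SH

/-- regular values are dense off the bad set -/
theorem regular_dense {n : ℕ} {X : Type} [TopologicalSpace X] [SecondCountableTopology X]
    [ChartedSpace (E n) X] [IsManifold (𝓡 n) ∞ X] (H : X → E n) (hH : IsProperMap H)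
    (V : Set (E n)) (hV : IsOpen V) (hVn : V.Nonempty)
    (hs : ∀ x, H x ∈ V → ContMDiffAt (𝓡 n) (𝓡 n) ∞ H x) :
    ∃ y ∈ V, ∃ ε : ℝ, 0 < ε ∧ ball y ε ⊆ V ∧ ∀ y' ∈ ball y ε, ∀ x, H x = y' → LD n H x := by
  have h1 := sardEq H (H ⁻¹' V) (hV.preimage hH.continuous) hs
  obtain ⟨y, hy, hyN⟩ : ∃ y ∈ V, y ∉ H '' {x | x ∈ H ⁻¹' V ∧ ¬ LD n H x} := by
    by_contra hcon
    push Not at hcon
    exact (hV.measure_pos volume hVn).ne' (measure_mono_null hcon h1)
  have hO : IsOpen {x | LD n H x} := isOpen_iff_mem_nhds.2 fun x hx => LD.eventually hx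
  have hC : IsClosed (H '' {x | LD n H x}ᶜ) := hH.isClosedMap _ hO.isClosed_compl
  have hyC : y ∈ V ∩ (H '' {x | LD n H x}ᶜ)ᶜ := by
    refine ⟨hy, ?_⟩
    rintro ⟨x, hx, hxy⟩
    exact hyN ⟨x, ⟨by rw [mem_preimage, hxy]; exact hy, hx⟩, hxy⟩
  obtain ⟨ε, hε, hball⟩ := Metric.isOpen_iff.1 (hV.inter hC.isOpen_compl) y hyC
  refine ⟨y, hy, ε, hε, fun z hz => (hball hz).1, fun y' hy' x hxy => ?_⟩
  by_contra hcon
  exact (hball hy').2 ⟨x, hcon, hxy⟩

section main

variable {m : ℕ} {X : Type} [TopologicalSpace X] [T2Space X] [ChartedSpace (E (m + 1)) X]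
    [IsManifold (𝓡 (m + 1)) ∞ X]

/-- **The theorem for thin bad sets.** -/
theorem thinS (hS : SFT m) (H : X → E (m + 1)) (hH : IsProperMap H)
    (hsurj : Surjective H) (B : Set (E (m + 1))) (hB : IsClosed B) (hT : Thin B)
    (hfibS : ∀ y, y ∉ B → UEmb (m + 1) (H ⁻¹' {y}))
    (hsm : ∀ x, H x ∉ B → ContMDiffAt (𝓡 (m + 1)) (𝓡 (m + 1)) ∞ H x)
    (hfib : ∀ y ∈ B, Emb (m + 1) (H ⁻¹' {y})) :
    (∀ K : Set X, IsCompact K → Emb (m + 1) K) ∧
      Nonempty (Diffeomorph (𝓡 (m + 1)) (𝓡 (m + 1)) X (E (m + 1)) ∞) := by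
  have : SigmaCompactSpace X := sigmaCompact_of_proper hH
  have : SecondCountableTopology X :=
    ChartedSpace.secondCountable_of_sigmaCompact (E (m + 1)) X
  have hU : IsOpen (H ⁻¹' Bᶜ) := hB.isOpen_compl.preimage hH.continuous
  refine mainS hS H hH hsurj B hB hfibS hsm hfib ?_ ?_
  · intro i
    have hpr : ContDiff ℝ ∞ (fun z : E (m + 1) => z i) := by fun_prop
    have h1 := sardMU (fun x => H x i) (H ⁻¹' Bᶜ) hU (fun x hx =>
      (contMDiff_iff_contDiff.2 hpr).contMDiffAt.comp x (hsm x hx))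
    refine dense_iff_inter_open.2 fun U hUo hUn => ?_
    obtain ⟨u, hu⟩ := hUn
    obtain ⟨ε, hε, hball⟩ := Metric.isOpen_iff.1 hUo u hu
    obtain ⟨c, ⟨hc1, hc2, hc3⟩, hc4⟩ := not_null_diff (hT.1 i (u - ε) (u + ε) (by linarith)) h1
    refine ⟨c, hball ?_, hc3, fun x hx h0 => hc4 ⟨x, ⟨?_, h0⟩, hx⟩⟩
    · rw [Real.ball_eq_Ioo]
      exact ⟨hc1, hc2⟩
    · intro hxB
      exact hc3 _ hxB hx
  · intro R
    have hpr : ContDiff ℝ ∞ (fun z : E (m + 1) => ‖z‖ ^ 2) := contDiff_norm_sq ℝ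
    have h1 := sardMU (fun x => ‖H x‖ ^ 2) (H ⁻¹' Bᶜ) hU (fun x hx =>
      (contMDiff_iff_contDiff.2 hpr).contMDiffAt.comp x (hsm x hx))
    set N : Set ℝ := (fun x => ‖H x‖ ^ 2) '' {x | x ∈ H ⁻¹' Bᶜ ∧
          mfderiv (𝓡 (m + 1)) 𝓘(ℝ, ℝ) (fun x => ‖H x‖ ^ 2) x = 0} with hN
    have h2 : volume (Real.sqrt '' (N ∩ Ioi 0)) = 0 := by
      refine addHaar_image_eq_zero_of_differentiableOn_of_addHaar_eq_zero volume ?_
        (measure_mono_null inter_subset_left h1)
      intro t ht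
      exact (Real.hasDerivAt_sqrt (ne_of_gt ht.2)).differentiableAt.differentiableWithinAt
    -- a radius off the bad set, with an interval
    obtain ⟨r₁, ⟨hr1, hr2⟩, -⟩ := not_null_diff (hT.2 (max R 0)) (measure_empty (μ := volume))
    obtain ⟨ε, hε, hεB⟩ : ∃ ε : ℝ, 0 < ε ∧ ∀ y ∈ B, ε ≤ |‖y‖ - r₁| := by
      have hK : IsCompact (B ∩ closedBall 0 (r₁ + 1)) := (isCompact_closedBall _ _).inter_left hB
      have hfar : ∀ y ∈ B, r₁ + 1 < ‖y‖ → 1 ≤ |‖y‖ - r₁| := by
        intro y _ hy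
        rw [abs_of_pos (by linarith)]
        linarith
      rcases (B ∩ closedBall (0 : E (m + 1)) (r₁ + 1)).eq_empty_or_nonempty with h0 | h0
      · refine ⟨1, one_pos, fun y hy => hfar y hy ?_⟩
        by_contra hcon
        have : y ∈ B ∩ closedBall (0 : E (m + 1)) (r₁ + 1) :=
          ⟨hy, by rw [mem_closedBall_zero_iff]; exact not_lt.1 hcon⟩
        rw [h0] at this
        exact this
      · have hc : ContinuousOn (fun y : E (m + 1) => |‖y‖ - r₁|)
            (B ∩ closedBall 0 (r₁ + 1)) := by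
          have : Continuous fun y : E (m + 1) => |‖y‖ - r₁| := by fun_prop
          exact this.continuousOn
        obtain ⟨y₀, hy₀, hmin⟩ := hK.exists_isMinOn h0 hc
        have hne : ‖y₀‖ - r₁ ≠ 0 := fun h => hr2 y₀ hy₀.1 (sub_eq_zero.1 h)
        refine ⟨min 1 |‖y₀‖ - r₁|, lt_min one_pos (abs_pos.2 hne), fun y hy => ?_⟩
        by_cases hyR : ‖y‖ ≤ r₁ + 1
        · exact (min_le_right _ _).trans (hmin ⟨hy, by rwa [mem_closedBall_zero_iff]⟩)
        · exact (min_le_left _ _).trans (hfar y hy (not_le.1 hyR))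
    set V : Set (E (m + 1)) := {y | |‖y‖ - r₁| < ε ∧ max R 0 < ‖y‖} with hV
    have hVo : IsOpen V := by
      have hc1 : Continuous fun y : E (m + 1) => |‖y‖ - r₁| := by fun_prop
      exact (isOpen_lt hc1 continuous_const).inter (isOpen_lt continuous_const continuous_norm)
    have hVB : ∀ y ∈ V, y ∉ B := fun y hy hyB => absurd hy.1 (not_lt.2 (hεB y hyB))
    have hr10 : 0 < r₁ := (le_max_right _ _).trans_lt hr1
    have hVn : V.Nonempty := by
      refine ⟨r₁ • e0, ?_⟩
      have hnr : ‖(r₁ • e0 : E (m + 1))‖ = r₁ := by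
        rw [norm_smul, norm_e0, mul_one, Real.norm_of_nonneg hr10.le]
      refine ⟨?_, ?_⟩
      · rw [hnr, sub_self, abs_zero]
        exact hε
      · rw [hnr]
        exact hr1
    obtain ⟨y₀, hy₀, ε', hε', hball, hreg⟩ := regular_dense H hH V hVo hVn
      (fun x hx => hsm x (hVB _ hx))
    have hy₀0 : 0 < ‖y₀‖ := (le_max_right _ _).trans_lt hy₀.2
    have hpos : volume (Ioo ‖y₀‖ (‖y₀‖ + ε')) ≠ 0 := by
      rw [Real.volume_Ioo]
      simpa using hε'
    obtain ⟨r, ⟨hr3, hr4⟩, hr5⟩ := not_null_diff hpos h2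
    have hr0 : 0 < r := hy₀0.trans hr3
    set p : E (m + 1) := (r / ‖y₀‖) • y₀ with hp
    have hpn : ‖p‖ = r := by
      rw [hp, norm_smul, Real.norm_of_nonneg (by positivity)]
      field_simp
    have hpb : p ∈ ball y₀ ε' := by
      rw [mem_ball, dist_eq_norm]
      have h3 : p - y₀ = ((r - ‖y₀‖) / ‖y₀‖) • y₀ := by
        rw [hp, sub_div, div_self hy₀0.ne', sub_smul, one_smul]
      rw [h3, norm_smul, Real.norm_of_nonneg (div_nonneg (by linarith) hy₀0.le)]
      field_simp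
      linarith
    obtain ⟨s₀, hs₀⟩ := hsurj p
    refine ⟨r, s₀, ?_, ?_, ?_, by rw [hs₀, hpn], ?_⟩
    · have := (hball hpb).2
      rw [hpn] at this
      exact (le_max_left _ _).trans_lt this
    · intro y hy hyr
      have h3 := hεB y hy
      have h4 := (hball hpb).1
      rw [hpn, ← hyr] at h4
      exact absurd h4 (not_lt.2 h3)
    · intro x hx h0
      refine hr5 ⟨r ^ 2, ⟨⟨x, ⟨?_, h0⟩, by simp only [hx]⟩, by
        show (0 : ℝ) < r ^ 2
        positivity⟩, Real.sqrt_sq hr0.le⟩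
      intro hxB
      have h3 := hεB _ hxB
      have h4 := (hball hpb).1
      rw [hpn, ← hx] at h4
      exact absurd h4 (not_lt.2 h3)
    · intro x hx
      have h3 := fibre_singleton H p (hfibS p (hVB p (hball hpb))) (fun x hx => hreg p hpb x hx)
      exact h3 (show H x = p by rw [hx, hs₀]) hs₀

end main

/-- **Theorem.** A smooth `n`-manifold with a proper smooth map onto `ℝ^n` all whose fibres are
universally embeddable is diffeomorphic to `ℝ^n`. -/
theorem sft : ∀ n : ℕ, SFT n := by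
  intro n
  induction n with
  | zero =>
    intro X _ _ _ _ H hH hs hHm hf
    have hX : Subsingleton X := by
      obtain ⟨U, k, -, hFU, hk, -⟩ := (hf 0).emb
      refine ⟨fun x y => ?_⟩
      exact hk (hFU (Subsingleton.elim (α := E 0) _ _)) (hFU (Subsingleton.elim (α := E 0) _ _))
        (Subsingleton.elim (α := E 0) _ _)
    exact ⟨{ toEquiv := Equiv.ofBijective H ⟨fun x y _ => Subsingleton.elim _ _, hs⟩
             contMDiff_toFun := hHm
             contMDiff_invFun := by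
               intro y
               have h1 : ((Equiv.ofBijective H ⟨fun x y _ => Subsingleton.elim _ _, hs⟩).symm :
                   E 0 → X) = fun _ =>
                   (Equiv.ofBijective H ⟨fun x y _ => Subsingleton.elim _ _, hs⟩).symm y := by
                 funext z
                 exact Subsingleton.elim _ _
               show ContMDiffAt _ _ _ ((Equiv.ofBijective H _).symm : E 0 → X) y
               rw [h1]
               exact contMDiffAt_const }⟩
  | succ m ih =>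
    intro X _ _ _ _ H hH hs hHm hf
    refine (thinS ih H hH hs ∅ isClosed_empty (thin_of_null (by simp)) (fun y _ => hf y)
      (fun x _ => hHm x) (fun y hy => hy.elim)).2

end Pool.Agent.H827.SF
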